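import Pool.Agent.Y755.Fin4

set_option autoImplicit false

/-! Uniformity in the exponent: the constants and the Dirichlet series. -/

namespace Pool.Agent.Q273.LU

open Finset Filter MonoidAlgebra Topology
open Pool.Agent.Y755
open Pool.Agent.W184.NZ
open Pool.Agent.H306R2 (lc dv lc_zero lc_succ' lc_nonneg lc_mono dv_one dv_prime_pow dA_mult dA_apply dv_nonneg cf Gs Ep
  Ep_expand C0 C0_nonneg C0_summable log_bd dv_sq_le dv_mono dvJ_summable cf_tsum up up_bound C1 Zr Zr_tendsto Zr_summable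
  Zr_pos tw_apply inv_prime lc_sq_le lc_summable aF aF_eq rpow_term Ep_ge_one primes_summable)

lemma C0_mono {a b : ℝ} (ha : 0 < a) (hab : a ≤ b) : C0 a ≤ C0 b := by
  unfold C0
  refine Summable.tsum_le_tsum (fun m => mul_le_mul_of_nonneg_right (lc_mono (by positivity) ?_ _) (by positivity))
    (C0_summable ha) (C0_summable (lt_of_lt_of_le ha hab))
  exact pow_le_pow_left₀ ha.le hab 2

lemma CL_le {a : ℝ} (ha : 0 < a) (ha2 : a ≤ 2) : CL a ≤ CL 2 := by
  unfold CL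
  have h1 := C0_mono ha ha2
  have h2 := C0_nonneg ha
  have h3 : a ^ 2 ≤ (2:ℝ) ^ 2 := pow_le_pow_left₀ ha.le ha2 2
  have h4 : (a ^ 2 + C0 a) ^ 2 ≤ ((2:ℝ) ^ 2 + C0 2) ^ 2 := pow_le_pow_left₀ (by positivity) (by linarith) 2
  linarith

lemma C1_le {a : ℝ} (ha : 0 < a) (ha2 : a ≤ 2) : C1 a ≤ C1 2 := by
  unfold C1
  have h1 := C0_mono ha ha2
  have h2 := C0_nonneg ha
  have h3 : a ^ 2 ≤ (2:ℝ) ^ 2 := pow_le_pow_left₀ ha.le ha2 2
  have h4 : (a ^ 2 + C0 a) ^ 2 ≤ ((2:ℝ) ^ 2 + C0 2) ^ 2 := pow_le_pow_left₀ (by positivity) (by linarith) 2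
  linarith

lemma C1_nonneg : 0 ≤ C1 2 := by
  unfold C1
  have := C0_nonneg (two_pos : (0:ℝ) < 2)
  positivity

/-- comparison with the full Dirichlet series, uniformly in the exponent -/
theorem cmpU {ε : ℝ} (hε : 0 < ε) : ∃ (z0 : ℕ) (x0 : ℝ), 0 < x0 ∧ ∀ z : ℕ, z0 ≤ z → 1000 ≤ z →
    ∀ α : ℝ, 0 < α → α ≤ 2 →
    ∀ y δ : ℝ, (z:ℝ) ≤ y → 0 < δ → x0 ≤ δ * Real.log y → ∀ J : ℕ, bb y J < 144 →
    Real.exp (-ε) * DD α δ ≤ (∏ p ∈ S0 z, Ed α δ p) * Real.exp (α ^ 2 * Vd δ z y J) ∧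
    (∏ p ∈ S0 z, Ed α δ p) * Real.exp (α ^ 2 * Vd δ z y J) ≤ Real.exp ε * DD α δ := by
  classical
  obtain ⟨B, hB, htail⟩ := vd_tail
  have hCL := CL_nonneg (two_pos : (0:ℝ) < 2)
  obtain ⟨z0, hz0⟩ := uI_tail (ε := ε / 2 / (CL 2 + 1)) (by positivity)
  obtain ⟨x1, hx1⟩ : ∃ x1 : ℝ, ∀ x, x1 ≤ x → 4 * (B * Real.exp (-(2 * x))) ≤ ε / 2 := by
    have h1 : Tendsto (fun x : ℝ => 4 * (B * Real.exp (-(2 * x)))) atTop (nhds (4 * (B * 0))) := by
      refine Tendsto.const_mul _ (Tendsto.const_mul _ ?_)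
      exact Real.tendsto_exp_neg_atTop_nhds_zero.comp (tendsto_id.const_mul_atTop (by norm_num : (0:ℝ) < 2))
    rw [mul_zero, mul_zero] at h1
    have := h1.eventually (gt_mem_nhds (by positivity : 0 < ε / 2))
    rw [eventually_atTop] at this
    obtain ⟨x1, hx1⟩ := this
    exact ⟨x1, fun x hx => (hx1 x hx).le⟩
  refine ⟨z0, max x1 (1 / 2), lt_of_lt_of_le (by norm_num) (le_max_right _ _), ?_⟩
  intro z hz hz1 α hα hα2 y δ hzy hδ hx J hJ
  have hα4 : α ^ 2 ≤ 4 := by nlinarith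
  have hCLa := CL_le hα hα2
  have hCLa0 := CL_nonneg hα
  have hz3 : (1000:ℝ) ≤ z := by exact_mod_cast hz1
  have hy1 : 1 ≤ y := by linarith
  set G := (∏ p ∈ S0 z, Ed α δ p) * Real.exp (α ^ 2 * Vd δ z y J) with hG
  have hkey : ∀ᶠ M : ℕ in atTop, Real.exp (-ε) * ∏ p ∈ S0 M, Ed α δ p ≤ G ∧ G ≤ Real.exp ε * ∏ p ∈ S0 M, Ed α δ p := by
    filter_upwards [eventually_gt_atTop ⌈y⌉₊] with M hM
    have hyM : y < M := by
      have := Nat.le_ceil y
      have h2 : ((⌈y⌉₊ : ℕ) : ℝ) < M := by exact_mod_cast hM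
      linarith
    set bl := (range J).biUnion (IZ z y) with hbl
    set rest : Finset ℕ := (S0 M).filter (fun p : ℕ => y < (p:ℝ)) with hrest
    have hrest' : ∀ p ∈ rest, p.Prime ∧ y < p := by
      intro p hp
      rw [hrest, mem_filter, mem_S0] at hp
      exact ⟨hp.1.2, hp.2⟩
    have hblm : ∀ p, p ∈ bl ↔ p.Prime ∧ z ≤ p ∧ (p:ℝ) ≤ y := fun p => mem_blocks (by omega) hy1 hJ
    have hdj1 : Disjoint (S0 z) (bl ∪ rest) := by
      rw [disjoint_left]
      intro p hp hq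
      rw [mem_S0] at hp
      rw [mem_union, hblm] at hq
      rcases hq with hq | hq
      · omega
      · have h3 := (hrest' p hq).2
        have h4 : (p:ℝ) ≤ z := by exact_mod_cast hp.1.le
        linarith
    have hdj2 : Disjoint bl rest := by
      rw [disjoint_left]
      intro p hp hq
      rw [hblm] at hp
      linarith [(hrest' p hq).2, hp.2.2]
    have hun : S0 M = S0 z ∪ (bl ∪ rest) := by
      ext p
      rw [mem_union, mem_union, hblm, hrest, mem_filter, mem_S0, mem_S0]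
      constructor
      · rintro ⟨h1, h2⟩
        rcases lt_or_ge p z with h3 | h3
        · exact Or.inl ⟨h3, h2⟩
        · rcases lt_or_ge y p with h4 | h4
          · exact Or.inr (Or.inr ⟨⟨h1, h2⟩, h4⟩)
          · exact Or.inr (Or.inl ⟨h2, h3, h4⟩)
      · rintro (⟨h1, h2⟩ | ⟨h1, h2, h3⟩ | ⟨h1, _⟩)
        · refine ⟨?_, h2⟩
          have h4 : (p:ℝ) < M := by
            have : (p:ℝ) ≤ z := by exact_mod_cast h1.le
            linarith
          exact_mod_cast h4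
        · exact ⟨by exact_mod_cast lt_of_le_of_lt h3 hyM, h1⟩
        · exact h1
    have hpr : ∀ p ∈ bl ∪ rest, p.Prime ∧ z ≤ p := by
      intro p hp
      rw [mem_union, hblm] at hp
      rcases hp with hp | hp
      · exact ⟨hp.1, hp.2.1⟩
      · refine ⟨(hrest' p hp).1, ?_⟩
        have : (z:ℝ) ≤ p := by linarith [(hrest' p hp).2]
        exact_mod_cast this
    have hEd : ∀ p ∈ bl ∪ rest, 0 < Ed α δ p := fun p hp => by
      have := Ed_ge_one (α := α) hδ.le (hpr p hp).1; linarith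
    have e1 : ∏ p ∈ S0 M, Ed α δ p = (∏ p ∈ S0 z, Ed α δ p) * Real.exp (∑ p ∈ bl ∪ rest, Real.log (Ed α δ p)) := by
      rw [hun, prod_union hdj1, Real.exp_sum]
      congr 1
      exact prod_congr rfl fun p hp => (Real.exp_log (hEd p hp)).symm
    have hVbl : Vd δ z y J = ∑ p ∈ bl, rp δ p ^ 2 := by
      unfold Vd vd
      rw [hbl, sum_biUnion]
      intro i _ j _ hij
      have hlt : ∀ i j, i < j → Disjoint (IZ z y i) (IZ z y j) := fun i j h =>
        disjoint_of_subset_left (IZ_sub z y i) (disjoint_of_subset_right (IZ_sub z y j) (II_disj hy1 h))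
      rcases lt_or_gt_of_ne hij with h | h
      · exact hlt i j h
      · exact (hlt j i h).symm
    have hvr : α ^ 2 * vd δ rest ≤ ε / 2 := by
      have h9 := htail δ y hδ.le (by linarith) ((le_max_right _ _).trans hx) rest hrest'
      calc α ^ 2 * vd δ rest ≤ 4 * (B * Real.exp (-(2 * (δ * Real.log y)))) :=
            mul_le_mul hα4 h9 (vd_nonneg _ _) (by norm_num)
        _ ≤ ε / 2 := hx1 _ ((le_max_left _ _).trans hx)
    have hvr0 : 0 ≤ α ^ 2 * vd δ rest := mul_nonneg (sq_nonneg _) (vd_nonneg _ _)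
    have e2 : |∑ p ∈ bl ∪ rest, Real.log (Ed α δ p) - α ^ 2 * Vd δ z y J| ≤ ε := by
      have e3 : ∑ p ∈ bl ∪ rest, Real.log (Ed α δ p) - α ^ 2 * Vd δ z y J =
          ∑ p ∈ bl ∪ rest, (Real.log (Ed α δ p) - α ^ 2 * rp δ p ^ 2) + α ^ 2 * vd δ rest := by
        rw [sum_sub_distrib, hVbl]
        unfold vd
        rw [← mul_sum, sum_union hdj2 (f := fun p => rp δ p ^ 2)]
        ring
      rw [e3]
      have e4 : |∑ p ∈ bl ∪ rest, (Real.log (Ed α δ p) - α ^ 2 * rp δ p ^ 2)| ≤ ε / 2 := by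
        refine (abs_sum_le_sum_abs _ _).trans ?_
        have h5 : ∀ p ∈ bl ∪ rest, |Real.log (Ed α δ p) - α ^ 2 * rp δ p ^ 2| ≤ CL α * (p:ℝ) ^ (-(3 / 2 : ℝ)) :=
          fun p hp => (Ed_log hα hδ.le (hpr p hp).1).trans
            (mul_le_mul_of_nonneg_left (sq_le_u (hpr p hp).1.one_lt.le) hCLa0)
        refine (sum_le_sum h5).trans ?_
        rw [← mul_sum]
        have h6 := hz0 z hz (bl ∪ rest) fun p hp => (hpr p hp).2
        calc _ ≤ CL α * (ε / 2 / (CL 2 + 1)) := mul_le_mul_of_nonneg_left h6 hCLa0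
          _ ≤ (CL 2 + 1) * (ε / 2 / (CL 2 + 1)) := mul_le_mul_of_nonneg_right (by linarith) (by positivity)
          _ = ε / 2 := by field_simp
      rw [abs_le] at e4 ⊢
      constructor <;> linarith
    obtain ⟨h7, h8⟩ := abs_le.mp e2
    have hPz : 0 ≤ ∏ p ∈ S0 z, Ed α δ p := prod_nonneg fun p hp => by
      have := Ed_ge_one (α := α) hδ.le (mem_S0.mp hp).2; linarith
    rw [e1, hG]
    constructor
    · rw [mul_left_comm, ← Real.exp_add]
      exact mul_le_mul_of_nonneg_left (Real.exp_le_exp.mpr (by linarith)) hPz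
    · rw [mul_left_comm, ← Real.exp_add]
      exact mul_le_mul_of_nonneg_left (Real.exp_le_exp.mpr (by linarith)) hPz
  have ht := DD_tendsto hα hδ
  exact ⟨le_of_tendsto (ht.const_mul _) (hkey.mono fun M h => h.1), ge_of_tendsto (ht.const_mul _) (hkey.mono fun M h => h.2)⟩

/-- the series as a product -/
lemma DD_eq {α δ : ℝ} (hα : 0 < α) (hδ : 0 < δ) :
    DD α δ = Real.exp (∑' p : Nat.Primes, up (fun _ : Fin 1 => α) (fun _ => 2 * δ) p) * Zr (2 * δ) ^ (α ^ 2) := by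
  have h1 := cf_tsum (e := fun _ : Fin 1 => α) (fun _ => hα.le) (by simpa using hα) (s := fun _ => 2 * δ)
    (σ := 2 * δ) (by positivity) (fun _ => le_rfl)
  simp only [cf_fin1, univ_unique, sum_const, card_singleton, one_smul, prod_const, pow_one] at h1
  rw [sq]
  exact h1

lemma up_le {α δ : ℝ} (hα : 0 < α) (hα2 : α ≤ 2) (hδ : 0 ≤ δ) (p : Nat.Primes) :
    ‖up (fun _ : Fin 1 => α) (fun _ => 2 * δ) p‖ ≤ C1 2 * (1 / ((p:ℕ):ℝ)) ^ 2 := by
  have h5 := up_bound (e := fun _ : Fin 1 => α) (fun _ => hα.le) (by simpa using hα) (s := fun _ => 2 * δ)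
    (fun _ => by positivity) p.2
  rw [Real.norm_eq_abs]
  simp only [univ_unique, sum_const, card_singleton, one_smul] at h5
  exact h5.trans (mul_le_mul_of_nonneg_right (C1_le hα hα2) (by positivity))

/-- the lower bound for the series, uniformly in the exponent -/
theorem DD_lowU : ∃ c : ℝ, 0 < c ∧ ∀ α : ℝ, 0 < α → α ≤ 2 → ∀ δ : ℝ, 0 < δ → δ ≤ 1 / 2 →
    c * δ ^ (-(α ^ 2)) ≤ DD α δ := by
  obtain ⟨c, hc, hZ⟩ := Zr_low
  set S : ℝ := ∑' p : Nat.Primes, C1 2 * (1 / ((p:ℕ):ℝ)) ^ 2 with hS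
  have hs := Pool.Agent.H306R2.primes_summable.mul_left (C1 2)
  set q : ℝ := min (c / 2) 1 with hq
  have hq0 : 0 < q := lt_min (by positivity) one_pos
  refine ⟨Real.exp (-S) * q ^ (4:ℝ), by positivity, fun α hα hα2 δ hδ hδ1 => ?_⟩
  have hα4 : α ^ 2 ≤ 4 := by nlinarith
  rw [DD_eq hα hδ]
  have h3 : -S ≤ ∑' p : Nat.Primes, up (fun _ : Fin 1 => α) (fun _ => 2 * δ) p := by
    have h4 : ‖∑' p : Nat.Primes, up (fun _ : Fin 1 => α) (fun _ => 2 * δ) p‖ ≤ S :=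
      tsum_of_norm_bounded hs.hasSum fun p => up_le hα hα2 hδ.le p
    exact (abs_le.mp (by rwa [Real.norm_eq_abs] at h4)).1
  have h5 := hZ (2 * δ) (by positivity) (by linarith)
  have h6 : q ^ (4:ℝ) * δ ^ (-(α ^ 2)) ≤ (c / (2 * δ)) ^ (α ^ 2) := by
    have e1 : (c / (2 * δ)) ^ (α ^ 2) = (c / 2) ^ (α ^ 2) * δ ^ (-(α ^ 2)) := by
      rw [Real.rpow_neg hδ.le, ← Real.inv_rpow hδ.le, ← Real.mul_rpow (by positivity) (by positivity)]
      congr 1
      field_simp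
    rw [e1]
    refine mul_le_mul_of_nonneg_right ?_ (by positivity)
    calc q ^ (4:ℝ) ≤ q ^ (α ^ 2) := Real.rpow_le_rpow_of_exponent_ge hq0 (min_le_right _ _) hα4
      _ ≤ (c / 2) ^ (α ^ 2) := Real.rpow_le_rpow hq0.le (min_le_left _ _) (sq_nonneg _)
  rw [mul_assoc]
  exact mul_le_mul (Real.exp_le_exp.mpr h3) (h6.trans (Real.rpow_le_rpow (by positivity) h5 (sq_nonneg _)))
    (by positivity) (Real.exp_pos _).le

end Pool.Agent.Q273.LU
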