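import Pool.Agent.Q273.LU.A1

set_option autoImplicit false

/-! Uniformity in the exponent: the local factors and the polynomial over the small primes. -/

namespace Pool.Agent.Q273.LU

open Finset Filter MonoidAlgebra Topology
open Pool.Agent.Y755
open Pool.Agent.W184.NZ
open Pool.Agent.H306R2 (lc dv lc_zero lc_succ' lc_nonneg lc_mono dv_one dv_prime_pow dA_mult dA_apply dv_nonneg cf Gs Ep
  Ep_expand C0 C0_nonneg C0_summable log_bd dv_sq_le dv_mono dvJ_summable cf_tsum up up_bound C1 Zr Zr_tendsto Zr_summable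
  Zr_pos tw_apply inv_prime lc_sq_le lc_summable aF aF_eq rpow_term Ep_ge_one primes_summable)

lemma lc_cont (k : ℕ) : Continuous fun a : ℝ => lc a k := by
  unfold lc
  fun_prop

lemma lc_half {a : ℝ} (ha : 0 < a) : Summable fun k : ℕ => lc a k ^ 2 * (1 / 2 : ℝ) ^ k := by
  refine Summable.of_nonneg_of_le (fun k => by positivity) (fun k => ?_)
    (lc_summable (α := a ^ 2) (by positivity) (x := 1 / 2) (by norm_num) (by norm_num))
  exact mul_le_mul_of_nonneg_right (lc_sq_le ha.le k) (by positivity)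

/-- the distance between the local factors -/
noncomputable def dl (a b : ℝ) : ℝ := ∑' k : ℕ, |lc b k ^ 2 - lc a k ^ 2| * (1 / 2 : ℝ) ^ k

lemma dl_summable {a b : ℝ} (ha : 0 < a) (hb : 0 < b) :
    Summable fun k : ℕ => |lc b k ^ 2 - lc a k ^ 2| * (1 / 2 : ℝ) ^ k := by
  refine Summable.of_nonneg_of_le (fun k => by positivity) (fun k => ?_) ((lc_half ha).add (lc_half hb))
  rw [← add_mul]
  refine mul_le_mul_of_nonneg_right ?_ (by positivity)
  rw [abs_le]
  constructor <;> nlinarith [sq_nonneg (lc a k), sq_nonneg (lc b k)]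

lemma dl_tendsto {a : ℝ} (ha : 0 < a) : Tendsto (dl a) (𝓝 a) (𝓝 0) := by
  have h0 : (0:ℝ) = ∑' _ : ℕ, (0:ℝ) := by simp
  rw [h0]
  unfold dl
  refine tendsto_tsum_of_dominated_convergence
    (bound := fun k => lc a k ^ 2 * (1 / 2 : ℝ) ^ k + lc (2 * a) k ^ 2 * (1 / 2 : ℝ) ^ k)
    ((lc_half ha).add (lc_half (by positivity))) (fun k => ?_) ?_
  · have h1 : Continuous fun b : ℝ => |lc b k ^ 2 - lc a k ^ 2| * (1 / 2 : ℝ) ^ k := by
      have := lc_cont k
      fun_prop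
    have h2 := h1.tendsto a
    simpa using h2
  · filter_upwards [eventually_gt_nhds ha, eventually_lt_nhds (show a < 2 * a by linarith)] with b hb1 hb2 k
    rw [Real.norm_of_nonneg (by positivity), ← add_mul]
    refine mul_le_mul_of_nonneg_right ?_ (by positivity)
    have h3 : lc b k ^ 2 ≤ lc (2 * a) k ^ 2 := pow_le_pow_left₀ (lc_nonneg hb1.le k) (lc_mono hb1.le hb2.le k) 2
    rw [abs_le]
    constructor <;> nlinarith [sq_nonneg (lc a k), sq_nonneg (lc b k)]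

lemma Ed_sub_le {a b δ : ℝ} (ha : 0 < a) (hb : 0 < b) (hδ : 0 ≤ δ) {p : ℕ} (hp : p.Prime) :
    |Ed b δ p - Ed a δ p| ≤ dl a b := by
  unfold Ed dl
  rw [← (Ed_summable hδ hp).tsum_sub (Ed_summable hδ hp), ← Real.norm_eq_abs]
  refine tsum_of_norm_bounded (dl_summable ha hb).hasSum fun k => ?_
  rw [← sub_mul, norm_mul, Real.norm_eq_abs, norm_pow, Real.norm_of_nonneg (sq_nonneg _)]
  exact mul_le_mul_of_nonneg_left (pow_le_pow_left₀ (sq_nonneg _) (rp2_half hδ hp) k) (abs_nonneg _)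

/-- the product of the local factors over the small primes -/
lemma prodEd_cont {a : ℝ} (ha : 0 < a) (z : ℕ) {κ : ℝ} (hκ : 0 < κ) : ∃ ρ : ℝ, 0 < ρ ∧ ρ < a ∧ ∀ b : ℝ, |b - a| ≤ ρ →
    ∀ δ : ℝ, 0 ≤ δ → ∏ p ∈ S0 z, Ed b δ p ≤ (1 + κ) * ∏ p ∈ S0 z, Ed a δ p ∧
      ∏ p ∈ S0 z, Ed a δ p ≤ (1 + κ) * ∏ p ∈ S0 z, Ed b δ p := by
  have h1 : Tendsto (fun x : ℝ => (1 + x) ^ (S0 z).card) (𝓝 0) (𝓝 ((1 + 0) ^ (S0 z).card)) := by
    have : Continuous fun x : ℝ => (1 + x) ^ (S0 z).card := by fun_prop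
    exact this.tendsto 0
  rw [add_zero, one_pow] at h1
  have h2 := (h1.comp (dl_tendsto ha)).eventually (gt_mem_nhds (show (1:ℝ) < 1 + κ by linarith))
  rw [Metric.eventually_nhds_iff] at h2
  obtain ⟨r, hr, h3⟩ := h2
  refine ⟨min (r / 2) (a / 2), lt_min (by positivity) (by positivity), (min_le_right _ _).trans_lt (by linarith), ?_⟩
  intro b hb δ hδ
  have hb0 : 0 < b := by
    have := (abs_le.mp (hb.trans (min_le_right _ _))).1
    linarith
  have h4 : (1 + dl a b) ^ (S0 z).card ≤ 1 + κ := by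
    refine (h3 ?_).le
    rw [Real.dist_eq]
    exact (hb.trans (min_le_left _ _)).trans_lt (by linarith)
  have hd0 : 0 ≤ dl a b := tsum_nonneg fun k => by positivity
  have key : ∀ u v : ℝ, 0 < u → 0 < v → (∀ p : ℕ, p.Prime → |Ed v δ p - Ed u δ p| ≤ dl a b) →
      ∏ p ∈ S0 z, Ed v δ p ≤ (1 + κ) * ∏ p ∈ S0 z, Ed u δ p := by
    intro u v hu hv h
    have h5 : ∀ p ∈ S0 z, Ed v δ p ≤ (1 + dl a b) * Ed u δ p := by
      intro p hp
      have hp' := (mem_S0.mp hp).2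
      have h6 := (abs_le.mp (h p hp')).2
      have h7 := Ed_ge_one (α := u) hδ hp'
      nlinarith
    have h8 : ∏ p ∈ S0 z, Ed v δ p ≤ ∏ p ∈ S0 z, ((1 + dl a b) * Ed u δ p) :=
      prod_le_prod (fun p hp => zero_le_one.trans (Ed_ge_one hδ (mem_S0.mp hp).2)) h5
    rw [prod_mul_distrib, prod_const] at h8
    have h9 : 0 ≤ ∏ p ∈ S0 z, Ed u δ p := prod_nonneg fun p hp => zero_le_one.trans (Ed_ge_one hδ (mem_S0.mp hp).2)
    exact h8.trans (mul_le_mul_of_nonneg_right h4 h9)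
  refine ⟨key a b ha hb0 fun p hp => Ed_sub_le ha hb0 hδ hp, key b a hb0 ha fun p hp => ?_⟩
  rw [abs_sub_comm]
  exact Ed_sub_le ha hb0 hδ hp

/-- lower bound for the product over the small primes -/
lemma Pz_low (z : ℕ) : ∃ q : ℝ, 0 < q ∧ ∀ s : ℂ, 1 / 2 ≤ s.re → q ≤ ‖es s (Pz z)‖ := by
  refine ⟨∏ p ∈ z.primesBelow, (1 - (p:ℝ) ^ (-(1 / 2 : ℝ))), prod_pos fun p hp => ?_, fun s hs => ?_⟩
  · have := half_lt_one (Nat.prime_of_mem_primesBelow hp).two_le
    linarith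
  · rw [es_Pz, norm_prod]
    refine prod_le_prod (fun p hp => ?_) fun p hp => ?_
    · have := half_lt_one (Nat.prime_of_mem_primesBelow hp).two_le
      linarith
    · have h1 := norm_p_le (Nat.prime_of_mem_primesBelow hp).two_le hs
      have h2 := norm_sub_norm_le (1:ℂ) ((p:ℂ) ^ (-s))
      rw [norm_one] at h2
      linarith

/-- the approximation over the small primes, uniformly in the exponent near a given one -/
theorem small_exU {α ε : ℝ} (hα : 0 < α) (z : ℕ) (hε : 0 < ε) : ∃ ρ : ℝ, 0 < ρ ∧ ρ < α ∧ ∃ (A0 : P1) (m : ℝ),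
    Bd1 m A0 ∧ A0 ∈ SA1 (M1 (S0 z)) ∧ ∀ β : ℝ, |β - α| ≤ ρ →
    (∀ s : ℂ, 1 / 2 ≤ s.re → 1 - ε ≤ ‖es s (Pz z)‖ ^ (2 * β) * ‖es s A0‖ ^ 2 ∧
      ‖es s (Pz z)‖ ^ (2 * β) * ‖es s A0‖ ^ 2 ≤ 1 + ε) ∧
    (∀ δ : ℝ, 0 ≤ δ → (1 - ε) * ∏ p ∈ S0 z, Ed β δ p ≤ ip δ A0 A0 ∧
      ip δ A0 A0 ≤ (1 + ε) * ∏ p ∈ S0 z, Ed β δ p) := by
  set e : ℝ := min (ε / 4) (1 / 4) with he
  have he0 : 0 < e := lt_min (by positivity) (by norm_num)
  have he1 : e ≤ ε / 4 := min_le_left _ _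
  have he2 : e ≤ 1 / 4 := min_le_right _ _
  obtain ⟨A0, m, hA, hAm, hPA, hip⟩ := small_ex hα z he0
  obtain ⟨ρ₁, hρ1, hρa, hEd⟩ := prodEd_cont hα z he0
  obtain ⟨q, hq0, hq⟩ := Pz_low z
  set LP := l1' (Pz z) with hLP
  have hPz := Pz_Bd z
  have hLPq : ∀ s : ℂ, 1 / 2 ≤ s.re → ‖es s (Pz z)‖ ≤ LP := fun s hs => es_norm_le (by linarith) hPz
  set M : ℝ := |Real.log q| + |Real.log LP| + 1 with hM
  have hM0 : 0 < M := by positivity
  have h1 : Tendsto (fun x : ℝ => Real.exp x) (𝓝 0) (𝓝 1) := by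
    have := Real.continuous_exp.tendsto 0
    rwa [Real.exp_zero] at this
  have h2 := (h1.eventually (gt_mem_nhds (show (1:ℝ) < 1 + e by linarith))).and
    (h1.eventually (lt_mem_nhds (show 1 - e < (1:ℝ) by linarith)))
  rw [Metric.eventually_nhds_iff] at h2
  obtain ⟨r, hr, h3⟩ := h2
  set ρ : ℝ := min ρ₁ (r / (4 * M)) with hρ
  refine ⟨ρ, lt_min hρ1 (by positivity), (min_le_left _ _).trans_lt hρa, A0, m, hA, hAm, fun β hβ => ⟨?_, ?_⟩⟩
  · intro s hs
    obtain ⟨g1, g2⟩ := hPA s hs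
    set P := ‖es s (Pz z)‖ with hP
    have hP0 : 0 < P := lt_of_lt_of_le hq0 (hq s hs)
    have hPl : |Real.log P| ≤ M := by
      have a1 := Real.log_le_log hq0 (hq s hs)
      have a2 := Real.log_le_log hP0 (hLPq s hs)
      have a3 := neg_abs_le (Real.log q)
      have a4 := le_abs_self (Real.log LP)
      have a5 := abs_nonneg (Real.log q)
      have a6 := abs_nonneg (Real.log LP)
      rw [abs_le]
      constructor <;> linarith
    have e1 : P ^ (2 * β) = P ^ (2 * α) * Real.exp (2 * (β - α) * Real.log P) := by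
      rw [Real.rpow_def_of_pos hP0, Real.rpow_def_of_pos hP0, ← Real.exp_add]
      congr 1; ring
    have e2 : |2 * (β - α) * Real.log P| < r := by
      rw [abs_mul, abs_mul, abs_of_pos (two_pos : (0:ℝ) < 2)]
      have a1 : |β - α| ≤ r / (4 * M) := hβ.trans (min_le_right _ _)
      calc 2 * |β - α| * |Real.log P| ≤ 2 * (r / (4 * M)) * M :=
            mul_le_mul (mul_le_mul_of_nonneg_left a1 (by norm_num)) hPl (abs_nonneg _) (by positivity)
        _ = r / 2 := by field_simp; ring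
        _ < r := by linarith
    obtain ⟨k1, k2⟩ := h3 (y := 2 * (β - α) * Real.log P) (by rwa [Real.dist_eq, sub_zero])
    set X := P ^ (2 * α) * ‖es s A0‖ ^ 2 with hX
    set E := Real.exp (2 * (β - α) * Real.log P) with hE
    have e3 : P ^ (2 * β) * ‖es s A0‖ ^ 2 = X * E := by rw [e1, hX]; ring
    rw [e3]
    have hE0 : 0 < E := Real.exp_pos _
    have hX0 : 0 ≤ X := by positivity
    constructor
    · have : (1 - e) * (1 - e) ≤ X * E := mul_le_mul g1 k2.le (by linarith) hX0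
      nlinarith
    · have : X * E ≤ (1 + e) * (1 + e) := mul_le_mul g2 k1.le hE0.le (by linarith)
      nlinarith
  · intro δ hδ
    obtain ⟨g1, g2⟩ := hip δ hδ
    obtain ⟨k1, k2⟩ := hEd β (hβ.trans (min_le_left _ _)) δ hδ
    set U := ∏ p ∈ S0 z, Ed α δ p with hU
    set V := ∏ p ∈ S0 z, Ed β δ p with hV
    have hβ0 : 0 < β := by
      have := (abs_le.mp (hβ.trans (min_le_left _ _))).1
      linarith
    have hV0 : 0 ≤ V := prod_nonneg fun p hp => zero_le_one.trans (Ed_ge_one hδ (mem_S0.mp hp).2)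
    constructor
    · have : (1 - e) * V ≤ (1 - e) * ((1 + e) * U) := mul_le_mul_of_nonneg_left k1 (by linarith)
      have h5 : (1 + e) * ((1 - e) * U) ≤ (1 + e) * ip δ A0 A0 := mul_le_mul_of_nonneg_left g1 (by linarith)
      have h6 : (1 - e) * V ≤ (1 + e) * ip δ A0 A0 := by linarith
      by_contra hcon
      rw [not_le] at hcon
      have h7 : (1 + e) * ip δ A0 A0 < (1 + e) * ((1 - ε) * V) := mul_lt_mul_of_pos_left hcon (by linarith)
      have h8 : (1 + e) * ((1 - ε) * V) ≤ (1 - e) * V := by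
        have : (1 + e) * (1 - ε) ≤ 1 - e := by nlinarith
        calc (1 + e) * ((1 - ε) * V) = ((1 + e) * (1 - ε)) * V := by ring
          _ ≤ (1 - e) * V := mul_le_mul_of_nonneg_right this hV0
      linarith
    · calc ip δ A0 A0 ≤ U := g2
        _ ≤ (1 + e) * V := k2
        _ ≤ (1 + ε) * V := mul_le_mul_of_nonneg_right (by linarith) hV0

/-- the local factor along a filter -/
lemma Ed_tendsto {ι : Type*} {l : Filter ι} {a : ι → ℝ} {δ : ι → ℝ} {α : ℝ} (hα : 0 < α) (ha : Tendsto a l (𝓝 α))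
    (hδ : Tendsto δ l (𝓝 0)) (hδ0 : ∀ᶠ i in l, 0 ≤ δ i) {p : ℕ} (hp : p.Prime) :
    Tendsto (fun i => Ed (a i) (δ i) p) l (𝓝 (Ed α 0 p)) := by
  have hp0 : (0:ℝ) < p := by exact_mod_cast hp.pos
  have h1 : Tendsto (fun i => Ed α (δ i) p) l (𝓝 (Ed α 0 p)) := by
    unfold Ed
    refine tendsto_tsum_of_dominated_convergence (bound := fun k => lc α k ^ 2 * (1 / 2 : ℝ) ^ k) (lc_half hα)
      (fun k => ?_) ?_
    · refine Tendsto.const_mul _ (Tendsto.pow (Tendsto.pow ?_ 2) k)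
      unfold rp
      exact Tendsto.rpow tendsto_const_nhds ((hδ.const_add _).neg) (Or.inl hp0.ne')
    · filter_upwards [hδ0] with i hi k
      rw [Real.norm_of_nonneg (by positivity)]
      exact mul_le_mul_of_nonneg_left (pow_le_pow_left₀ (sq_nonneg _) (rp2_half hi hp) k) (sq_nonneg _)
  have h2 : Tendsto (fun i => Ed (a i) (δ i) p - Ed α (δ i) p) l (𝓝 0) := by
    refine squeeze_zero_norm' ?_ ((dl_tendsto hα).comp ha)
    filter_upwards [hδ0, ha.eventually (eventually_gt_nhds hα)] with i hi hai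
    exact Ed_sub_le hα hai hi hp
  have h3 := h2.add h1
  rw [zero_add] at h3
  exact h3.congr fun i => by ring

lemma up_tendsto' {ι : Type*} {l : Filter ι} {a : ι → ℝ} {δ : ι → ℝ} {α : ℝ} (hα : 0 < α) (ha : Tendsto a l (𝓝 α))
    (hδ : Tendsto δ l (𝓝 0)) (hδ0 : ∀ᶠ i in l, 0 ≤ δ i) {p : ℕ} (hp : p.Prime) :
    Tendsto (fun i => up (fun _ : Fin 1 => a i) (fun _ => 2 * δ i) p) l (𝓝 (up (fun _ : Fin 1 => α) (fun _ => 2 * 0) p)) := by
  have hp0 : (0:ℝ) < p := by exact_mod_cast hp.pos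
  unfold up
  simp only [univ_unique, sum_const, card_singleton, one_smul]
  simp_rw [Ep_fin1 _ _ hp]
  have h1 := Ed_ge_one (α := α) (le_refl (0:ℝ)) hp
  refine ((Ed_tendsto hα ha hδ hδ0 hp).log (by linarith)).add ((ha.mul ha).mul ?_)
  have h2 := rpow_term hp (show (0:ℝ) ≤ 2 * 0 by norm_num)
  have h3 := (inv_prime hp).2
  have h4 : (p:ℝ) ^ (-1 - 2 * (0:ℝ)) < 1 := (h2.2.1.trans h3).trans_lt (by norm_num)
  refine Tendsto.log ?_ (sub_ne_zero.mpr h4.ne')
  refine Tendsto.const_sub _ ?_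
  exact Tendsto.rpow tendsto_const_nhds ((hδ.const_mul 2).const_sub _) (Or.inl hp0.ne')

/-- the size of the Dirichlet series, jointly in the exponent and the distance -/
theorem DD_joint {ι : Type*} {l : Filter ι} {a : ι → ℝ} {δ : ι → ℝ} {α : ℝ} (hα : 0 < α)
    (ha : Tendsto a l (𝓝 α)) (ha2 : ∀ᶠ i in l, a i ≤ 2) (hδ : Tendsto δ l (𝓝 0)) (hδ0 : ∀ᶠ i in l, 0 < δ i) :
    Tendsto (fun i => (2 * δ i) ^ (a i ^ 2) * DD (a i) (δ i)) l (𝓝 (aF α)) := by
  have hδ0' : ∀ᶠ i in l, 0 ≤ δ i := hδ0.mono fun i hi => hi.le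
  have ha0 := ha.eventually (eventually_gt_nhds hα)
  have h1 : Tendsto (fun i => ∑' p : Nat.Primes, up (fun _ : Fin 1 => a i) (fun _ => 2 * δ i) p) l
      (𝓝 (∑' p : Nat.Primes, up (fun _ : Fin 1 => α) (fun _ => 2 * 0) p)) := by
    refine tendsto_tsum_of_dominated_convergence
      (bound := fun p : Nat.Primes => C1 2 * (1 / ((p:ℕ):ℝ)) ^ 2) (primes_summable.mul_left _)
      (fun p => up_tendsto' hα ha hδ hδ0' p.2) ?_
    filter_upwards [ha0, ha2, hδ0'] with i h1 h2 h3 p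
    exact up_le h1 h2 h3 p
  have hinf : Tendsto (fun i => (2 * δ i)⁻¹) l atTop := by
    refine Tendsto.inv_tendsto_nhdsGT_zero ?_
    rw [tendsto_nhdsWithin_iff]
    refine ⟨by simpa using hδ.const_mul 2, hδ0.mono fun i hi => ?_⟩
    show 0 < 2 * δ i
    linarith
  have h2 : Tendsto (fun i => Zr (2 * δ i) * (2 * δ i)) l (𝓝 1) := by
    have h3 := (Zr_tendsto (s := 1) one_pos).comp hinf
    rw [inv_one] at h3
    refine h3.congr' ?_
    filter_upwards [hδ0] with i hi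
    simp only [Function.comp]
    have e1 : 1 / (2 * δ i)⁻¹ = 2 * δ i := by field_simp
    rw [e1, div_inv_eq_mul]
  have h4 : Tendsto (fun i => (Zr (2 * δ i) * (2 * δ i)) ^ (a i ^ 2)) l (𝓝 ((1:ℝ) ^ (α ^ 2))) :=
    h2.rpow (ha.pow 2) (Or.inl one_ne_zero)
  rw [Real.one_rpow] at h4
  have h5 := h1.rexp.mul h4
  have e2 : Real.exp (∑' p : Nat.Primes, up (fun _ : Fin 1 => α) (fun _ => 2 * 0) p) = aF α := by
    have h := aF_eq (ι := Fin 1) (e := fun _ => α) (fun _ => hα.le) (by simpa using hα)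
    simp only [univ_unique, sum_const, card_singleton, one_smul] at h
    rw [h, mul_zero]
    rfl
  rw [e2, mul_one] at h5
  refine h5.congr' ?_
  filter_upwards [ha0, hδ0] with i h6 h7
  have hz := (Zr_pos (σ := 2 * δ i) (by linarith)).le
  rw [DD_eq h6 h7, Real.mul_rpow hz (by linarith)]
  ring

end Pool.Agent.Q273.LU
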