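import Pool.Agent.Q273.LU.A2

set_option autoImplicit false

/-! The asymptotics over a window, uniformly in the exponent near a given one. -/

namespace Pool.Agent.Q273.LU

open Finset Filter MeasureTheory
open Pool.Agent.Y755
open Pool.Agent.W184.NZ
open Pool.Agent.W184 (zn zn_nonneg zn_cont zn_le')

/-- the comparison used in both theorems -/
lemma tail_term {C c2 e l1 lam T δ D α : ℝ} {N : ℕ} (hC : 0 < C) (hc2 : 0 < c2) (hα2 : α ^ 2 ≤ 4) (he0 : 0 < e)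
    (hl1 : ∀ x, l1 ≤ x → C / c2 * (x ^ (4:ℝ) * Real.exp (-(2 / 9) * x)) ≤ e) (hlam1 : 1 ≤ lam) (hlaml1 : l1 ≤ lam)
    (hx : lam ≤ δ * Real.log T) (hT0 : 0 < T) (hL0 : 0 < Real.log T) (hδ0 : 0 < δ)
    (hN : T ^ ((1:ℝ) / 9) ≤ N) (h3 : c2 * δ ^ (-(α ^ 2)) ≤ D) :
    C * (T * Real.log T ^ (α ^ 2)) * (N : ℝ) ^ (-(2 * δ)) ≤ 2 * e * (T / 2 * D) := by
  have h1 : (N:ℝ) ^ (-(2 * δ)) ≤ Real.exp (-(2 / 9) * (δ * Real.log T)) := by
    calc (N:ℝ) ^ (-(2 * δ)) ≤ (T ^ ((1:ℝ) / 9)) ^ (-(2 * δ)) :=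
          Real.rpow_le_rpow_of_nonpos (Real.rpow_pos_of_pos hT0 _) hN (by linarith only [hδ0])
      _ = Real.exp (-(2 / 9) * (δ * Real.log T)) := by
          rw [← Real.rpow_mul hT0.le, Real.rpow_def_of_pos hT0]
          congr 1; ring
  have h2 := hl1 (δ * Real.log T) (hlaml1.trans hx)
  have hx1 : 1 ≤ δ * Real.log T := hlam1.trans hx
  have h4 : Real.log T ^ (α ^ 2) = (δ * Real.log T) ^ (α ^ 2) * δ ^ (-(α ^ 2)) := by
    rw [Real.mul_rpow hδ0.le hL0.le, mul_right_comm, ← Real.rpow_add hδ0]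
    simp
  have h5 : (δ * Real.log T) ^ (α ^ 2) ≤ (δ * Real.log T) ^ (4:ℝ) := Real.rpow_le_rpow_of_exponent_le hx1 hα2
  have h6 : 0 ≤ δ ^ (-(α ^ 2)) := Real.rpow_nonneg hδ0.le _
  have h7 : 0 ≤ C * (T * Real.log T ^ (α ^ 2)) :=
    mul_nonneg hC.le (mul_nonneg hT0.le (Real.rpow_nonneg hL0.le _))
  have hE : 0 ≤ Real.exp (-(2 / 9) * (δ * Real.log T)) := (Real.exp_pos _).le
  calc C * (T * Real.log T ^ (α ^ 2)) * (N : ℝ) ^ (-(2 * δ)) ≤
        C * (T * Real.log T ^ (α ^ 2)) * Real.exp (-(2 / 9) * (δ * Real.log T)) :=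
        mul_le_mul_of_nonneg_left h1 h7
    _ = T * (C / c2 * ((δ * Real.log T) ^ (α ^ 2) * Real.exp (-(2 / 9) * (δ * Real.log T)))) * (c2 * δ ^ (-(α ^ 2))) := by
        rw [h4]; field_simp
    _ ≤ T * e * D := by
        refine mul_le_mul (mul_le_mul_of_nonneg_left (le_trans ?_ h2) hT0.le) h3 (mul_nonneg hc2.le h6)
          (mul_nonneg hT0.le he0.le)
        exact mul_le_mul_of_nonneg_left (mul_le_mul_of_nonneg_right h5 hE) (by positivity)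
    _ = 2 * e * (T / 2 * D) := by ring

lemma up_two {ε P0 EV ip0 D : ℝ} (hε : 0 < ε) (hε1 : ε ≤ 1 / 10) (hEV : 0 ≤ EV) (hD : 0 ≤ D)
    (hi2 : ip0 ≤ (1 + ε / 4) * P0) (hcm : P0 * EV ≤ Real.exp (ε / 4) * D) : ip0 * EV ≤ (1 + 2 * ε) * D := by
  have h1 : Real.exp (ε / 4) ≤ 1 + 2 * (ε / 4) := exp_le_two (by linarith) (by linarith)
  calc ip0 * EV ≤ (1 + ε / 4) * P0 * EV := mul_le_mul_of_nonneg_right hi2 hEV
    _ = (1 + ε / 4) * (P0 * EV) := by ring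
    _ ≤ (1 + ε / 4) * (Real.exp (ε / 4) * D) := mul_le_mul_of_nonneg_left hcm (by linarith)
    _ ≤ (1 + ε / 4) * ((1 + 2 * (ε / 4)) * D) :=
        mul_le_mul_of_nonneg_left (mul_le_mul_of_nonneg_right h1 hD) (by linarith)
    _ ≤ (1 + 2 * ε) * D := by
        have : (1 + ε / 4) * (1 + 2 * (ε / 4)) ≤ 1 + 2 * ε := by nlinarith
        calc _ = ((1 + ε / 4) * (1 + 2 * (ε / 4))) * D := by ring
          _ ≤ _ := mul_le_mul_of_nonneg_right this hD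

lemma low_two' {ε P0 EV ip0 D : ℝ} (hε : 0 < ε) (hε1 : ε ≤ 1 / 10) (hEV : 0 ≤ EV) (hD : 0 ≤ D)
    (hi1 : (1 - ε / 4) * P0 ≤ ip0) (hcm : Real.exp (-(ε / 4)) * D ≤ P0 * EV) : (1 - 2 * ε) * D ≤ ip0 * EV := by
  have h1 : 1 - ε / 4 ≤ Real.exp (-(ε / 4)) := by
    have := Real.add_one_le_exp (-(ε / 4)); linarith
  calc (1 - 2 * ε) * D ≤ (1 - ε / 4) * ((1 - ε / 4) * D) := by
        have : 1 - 2 * ε ≤ (1 - ε / 4) * (1 - ε / 4) := by nlinarith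
        calc _ ≤ ((1 - ε / 4) * (1 - ε / 4)) * D := mul_le_mul_of_nonneg_right this hD
          _ = _ := by ring
    _ ≤ (1 - ε / 4) * (Real.exp (-(ε / 4)) * D) :=
        mul_le_mul_of_nonneg_left (mul_le_mul_of_nonneg_right h1 hD) (by linarith)
    _ ≤ (1 - ε / 4) * (P0 * EV) := mul_le_mul_of_nonneg_left hcm (by linarith)
    _ = ((1 - ε / 4) * P0) * EV := by ring
    _ ≤ ip0 * EV := mul_le_mul_of_nonneg_right hi1 hEV

/-- the asymptotics over a window -/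
theorem win_mainU {α₀ : ℝ} (hα₀ : 0 < α₀) {ε : ℝ} (hε : 0 < ε) (hε1 : ε ≤ 1 / 10) :
    ∃ ρ : ℝ, 0 < ρ ∧ ρ < α₀ ∧ ∃ lam : ℝ, 1 ≤ lam ∧ ∀ᶠ T : ℝ in atTop, ∀ α : ℝ, |α - α₀| ≤ ρ → α ≤ 2 →
      ∀ δ : ℝ, lam / Real.log T ≤ δ → δ ≤ 1 / 16 →
      (1 - 64 * ε) * (T / 2 * DD α δ) ≤ ∫ t in (T ^ ((4:ℝ)/5))..(T / 2), zn (1 / 2 + δ) t ^ (2 * α) ∧
      (α ≤ 1 → ∫ t in (T ^ ((4:ℝ)/5))..(T / 2), zn (1 / 2 + δ) t ^ (2 * α) ≤ (1 + 13 * ε) * (T / 2 * DD α δ)) := by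
  set e := ε ^ 2 with he
  have he0 : 0 < e := by positivity
  have he1 : e ≤ 1 / 100 := by rw [he]; nlinarith
  obtain ⟨c, hc, hpar⟩ := par_ex
  obtain ⟨z1, R1, hET⟩ := ET_small hc he0
  obtain ⟨z2, x0, hx0, hcmp⟩ := cmpU (ε := ε / 4) (by positivity)
  set z : ℕ := max (max z1 z2) 1000 with hz
  have hz1000 : 1000 ≤ z := le_max_right _ _
  have hzz1 : z1 ≤ z := (le_max_left _ _).trans (le_max_left _ _)
  have hzz2 : z2 ≤ z := (le_max_right _ _).trans (le_max_left _ _)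
  obtain ⟨Rs, hRok, hR1, h4, h14⟩ := Rs_exists (c := c) hε R1
  have hRs1 : 1 ≤ Rs := hRok.1
  obtain ⟨ρ, hρ0, hρα, A0, m0, hA', hAm, hsx⟩ := small_exU hα₀ z (ε := ε / 4) (by positivity)
  set m : ℝ := max m0 1 with hm
  have hA : Bd1 m A0 := hA'.mono (le_max_left _ _)
  have hm0 : 0 ≤ m := le_trans zero_le_one (le_max_right _ _)
  obtain ⟨ηm, hηm, hmono⟩ := mono_moment
  have hq0 : 0 < min ηm (1 / 4) := lt_min hηm (by norm_num)
  have hq1 : min ηm (1 / 4) ≤ 1 / 4 := min_le_right _ _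
  have hRp : (0:ℝ) < (Rs:ℝ) + 1 := by positivity
  set η : ℝ := min ηm (1 / 4) / 4000 / ((Rs:ℝ) + 1) with hηd
  have hη : 0 < η := by positivity
  have hη1 : η * ((Rs:ℝ) + 1) = min ηm (1 / 4) / 4000 := by rw [hηd]; field_simp
  have hη2 : η * ((Rs:ℝ) + 1) ≤ 1 / 16000 := by rw [hη1]; linarith
  have hη16 : η ≤ 1 / 16 := by
    have : η * 1 ≤ η * ((Rs:ℝ) + 1) := mul_le_mul_of_nonneg_left (by
      have : (0:ℝ) ≤ Rs := Nat.cast_nonneg _
      linarith) hη.le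
    linarith
  obtain ⟨d, hd, hpar2⟩ := hpar z Rs hz1000 hRs1 η hη hη16
  obtain ⟨C, hC, hQ⟩ := hpa (z := z) hc hηm hmono hη hη1.le hRok hd hA hAm
  obtain ⟨c2, hc2, hDD⟩ := DD_lowU
  obtain ⟨l1, hl1⟩ := lam_ex (s := 4) (b := 2 / 9) (C := C / c2) (e := e) (by norm_num) he0
  obtain ⟨l2, hl2⟩ := exp_ex (C := 2 * d) hη he0
  set lam : ℝ := max 1 (max l1 (max l2 (x0 / η))) with hlam
  have hlam1 : 1 ≤ lam := le_max_left _ _
  have hlaml1 : l1 ≤ lam := (le_max_left _ _).trans (le_max_right _ _)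
  have hlaml2 : l2 ≤ lam := (le_max_left _ _).trans ((le_max_right _ _).trans (le_max_right _ _))
  have hlamx : x0 / η ≤ lam := (le_max_right _ _).trans ((le_max_right _ _).trans (le_max_right _ _))
  refine ⟨ρ, hρ0, hρα, lam, hlam1, ?_⟩
  set LP := l1' (Pz z * A0) with hLP
  set l := l1' A0 with hl
  set K0 : ℝ := 8 * (LP ^ 2 + l ^ 2) + 4 * m * l ^ 2 with hK0
  set sz : ℝ := (2 ^ (S0 z).card * l) ^ 2 with hsz
  have hsz0 : 0 ≤ sz := sq_nonneg _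
  filter_upwards [hpar2, hQ, windows_ev, eventually_ge_atTop (10 ^ 10), NT_ev (max 1 (max m (sz / (e * (9 / 10))))),
    rpow_ev (p := 1 / 50) (q := 1 / 9) (by norm_num) m,
    rpow_ev (p := 1 / 2) (q := 1) (by norm_num) (2 * K0 / e),
    rpow_ev (p := 4 / 5) (q := 1) (by norm_num) (2 / ε),
    Real.tendsto_log_atTop.eventually_ge_atTop 1] with T t1 t2 t3 t4 t5 t6 t7 t8 t9 α hαρ hα2 δ hδ1 hδ2
  obtain ⟨J, hS, hV, hWd⟩ := t1
  have hα : 0 < α := by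
    have := (abs_le.mp hαρ).1
    linarith
  have hα4 : α ^ 2 ≤ 4 := by nlinarith
  obtain ⟨hPA', hip⟩ := hsx α hαρ
  have hPA : ∀ s : ℂ, 1 / 2 ≤ s.re → 1 - ε ≤ ‖es s (Pz z)‖ ^ (2 * α) * ‖es s A0‖ ^ 2 ∧
      ‖es s (Pz z)‖ ^ (2 * α) * ‖es s A0‖ ^ 2 ≤ 1 + ε := fun s hs =>
    ⟨by linarith [(hPA' s hs).1], by linarith [(hPA' s hs).2]⟩
  have hT0 : 0 < T := by linarith
  have hT1 : 1 ≤ T := by linarith
  have hL0 : 0 < Real.log T := by linarith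
  have hx : lam ≤ δ * Real.log T := by rwa [div_le_iff₀ hL0] at hδ1
  have hδ0 : 0 < δ := by
    by_contra hcon
    have := mul_nonpos_of_nonpos_of_nonneg (not_lt.mp hcon) hL0.le
    linarith
  set y := yT η T with hy
  set N := NT T with hN
  set K := KT T with hK
  have hly : Real.log y = η * Real.log T := Real.log_exp _
  have hE := hET z hzz1 Rs hR1 y J hS.rg
  have hE0 := ET_nonneg c z y J Rs
  have hcm := hcmp z hzz2 hz1000 α hα hα2 y δ hS.zy hδ0 (by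
    rw [hly]
    have h1 : x0 ≤ lam * η := by rwa [div_le_iff₀ hη] at hlamx
    calc x0 ≤ lam * η := h1
      _ ≤ (δ * Real.log T) * η := mul_le_mul_of_nonneg_right hx hη.le
      _ = _ := by ring) J hS.J1
  have hNr : (1:ℝ) ≤ N := (le_max_left _ _).trans t5.1
  have hmN : m ≤ N := ((le_max_left _ _).trans (le_max_right _ _)).trans t5.1
  have hszN : sz / (e * (9 / 10)) ≤ N := ((le_max_right _ _).trans (le_max_right _ _)).trans t5.1
  have hNK : (N:ℝ) < 2 ^ (K + 1) := by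
    have : ((N : ℕ) : ℝ) < ((2 ^ (K + 1) : ℕ) : ℝ) := by exact_mod_cast hS.NK
    push_cast at this
    exact this
  have hmK : m < 2 ^ (K + 1) := by linarith
  -- sizes
  set ip0 := ip δ A0 A0 with hip0
  set P0 := ∏ p ∈ S0 z, Ed α δ p with hP0
  obtain ⟨hi1, hi2⟩ := hip δ hδ0.le
  have hP01 : 1 ≤ P0 := by
    have := prod_le_prod (s := S0 z) (f := fun _ => (1:ℝ)) (g := fun p => Ed α δ p) (fun _ _ => zero_le_one)
      (fun p hp => Ed_ge_one hδ0.le (mem_S0.mp hp).2)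
    simpa using this
  have hip9 : 9 / 10 ≤ ip0 := ax9 (ε := ε / 4) (by positivity) (by linarith) hP01 hi1
  set EV := Real.exp (α ^ 2 * Vd δ z y J) with hEV
  have hEV0 : 0 < EV := Real.exp_pos _
  have hDD1 : 1 ≤ DD α δ := DD_ge_one hα hδ0
  set D := DD α δ with hD
  have hMup : ip0 * EV ≤ (1 + 2 * ε) * D := up_two hε hε1 hEV0.le (zero_le_one.trans hDD1) hi2 hcm.2
  have hMlo : (1 - 2 * ε) * D ≤ ip0 * EV := low_two' hε hε1 hEV0.le (zero_le_one.trans hDD1) hi1 hcm.1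
  -- the tail
  have hv : 2 * vd δ (Rst N y) ≤ e := by
    have h1 := vd_rst hδ0.le hS.y1 (P := Rst N y) fun p hp => ⟨Rst_prime p hp, (mem_Rst.mp hp).2⟩
    rw [hly] at h1
    have h2 := hl2 (δ * Real.log T) (hlaml2.trans hx)
    have h3 : Real.exp (-(2 * (δ * (η * Real.log T)))) * vd 0 (Rst N y) ≤ Real.exp (-(2 * (δ * (η * Real.log T)))) * d :=
      mul_le_mul_of_nonneg_left hWd (Real.exp_pos _).le
    have e1 : δ * (η * Real.log T) = δ * Real.log T * η := by ring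
    rw [e1] at h1 h3
    linarith
  have hv0 := vd_nonneg δ (Rst N y)
  -- small primes
  have hsm : sz / 2 ^ (K + 1) ≤ e * ip0 := by
    have hN0 : (0:ℝ) < N := lt_of_lt_of_le one_pos hNr
    have h1 : sz / 2 ^ (K + 1) ≤ sz / N := div_le_div_of_nonneg_left hsz0 hN0 hNK.le
    have h2 : sz / N ≤ e * (9 / 10) := by
      rw [div_le_iff₀ hN0]
      rw [div_le_iff₀ (mul_pos he0 (by norm_num))] at hszN
      rwa [mul_comm]
    have h3 : e * (9 / 10) ≤ e * ip0 := mul_le_mul_of_nonneg_left hip9 he0.le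
    exact h1.trans (h2.trans h3)
  obtain ⟨k1, k2, k3, k4⟩ := coef (E := α ^ 2 * Vd δ z y J) he0 he1 ((by norm_num : (0:ℝ) ≤ 9 / 10).trans hip9)
    (div_nonneg hsz0 (pow_nonneg (by norm_num) _)) hsm hE0 hE hv0 hv
  -- the difference
  have hQ1 := t2 J hS hV hWd (hE.trans (by linarith)) (α - 1) (by rw [abs_le]; constructor <;> linarith) δ
    (le_trans (div_le_div_of_nonneg_right hlam1 hL0.le) hδ1) hδ2
  have e0 : 1 + (α - 1) = α := by ring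
  rw [e0] at hQ1
  have hX2 : (0:ℝ) ≤ T / 2 := by linarith
  set Y := T / 2 * D with hYd
  have hY0 : 0 ≤ Y := mul_nonneg hX2 (zero_le_one.trans hDD1)
  have hQ2 : C * (T * Real.log T ^ (α ^ 2)) * (N : ℝ) ^ (-(2 * δ)) ≤ 2 * ε ^ 2 * Y :=
    tail_term hC hc2 hα4 he0 hl1 hlam1 hlaml1 hx hT0 hL0 hδ0 t5.2 (hDD α hα hα2 δ hδ0 (hδ2.trans (by norm_num)))
  -- errors
  set W := T ^ ((1:ℝ) / 50) with hWdef
  have hW : Real.exp (Real.log y * (180 * ((Rs:ℝ) + 1))) ≤ W := ly_exp hT1 hη2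
  have hW0 : 0 < W := Real.rpow_pos_of_pos hT0 _
  have hK0T : K0 * T ^ ((1:ℝ) / 2) ≤ ε ^ 2 * Y := by
    rw [Real.rpow_one] at t7
    have h1 : K0 * T ^ ((1:ℝ) / 2) ≤ e * (T / 2) := by
      have h2 := mul_le_mul_of_nonneg_left t7 (half_pos he0).le
      calc K0 * T ^ ((1:ℝ) / 2) = e / 2 * (2 * K0 / e * T ^ ((1:ℝ) / 2)) := by field_simp
        _ ≤ e / 2 * T := h2
        _ = e * (T / 2) := by ring
    have h3 : e * (T / 2) ≤ e * (T / 2) * D := le_mul_of_one_le_right (mul_nonneg he0.le hX2) hDD1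
    calc K0 * T ^ ((1:ℝ) / 2) ≤ e * (T / 2) * D := h1.trans h3
      _ = ε ^ 2 * Y := by rw [hYd, he]; ring
  obtain ⟨f1, f2, f4, f5⟩ := errs (LP := LP) (l := l) hT1 hm0 hK0T
  have hMX : T / 2 * (ip0 * EV) ≤ (1 + 2 * ε) * Y := by
    calc _ ≤ T / 2 * ((1 + 2 * ε) * D) := mul_le_mul_of_nonneg_left hMup hX2
      _ = _ := by rw [hYd]; ring
  have hMX' : (1 - 2 * ε) * Y ≤ T / 2 * (ip0 * EV) := by
    calc (1 - 2 * ε) * Y = T / 2 * ((1 - 2 * ε) * D) := by rw [hYd]; ring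
      _ ≤ _ := mul_le_mul_of_nonneg_left hMlo hX2
  have hX1 : 0 ≤ T ^ ((4:ℝ)/5) := by positivity
  have hI0 : 0 ≤ ∫ t in (T ^ ((4:ℝ)/5))..(T / 2), zn (1 / 2 + δ) t ^ (2 * α) :=
    intervalIntegral.integral_nonneg t3.1 fun t _ => Real.rpow_nonneg (zn_nonneg _ _) _
  have hre : ∀ t : ℝ, (1:ℝ) / 2 ≤ (1 / 2 + (δ:ℂ) + t * Complex.I).re := fun t => by
    rw [half_re]; linarith only [hδ0]
  constructor
  · have hmW : m * W ≤ N := t6.trans t5.2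
    have hw := win_low (Q := C * (T * Real.log T ^ (α ^ 2)) * (N : ℝ) ^ (-(2 * δ))) (ε := ε) (τ := ε) hS hA hAm hm0 hmK hmW
      hδ0.le hδ2 hα hα2 hε (hε1.trans (by norm_num)) (fun t => by
        have h1 := (hPA _ (hre t)).1
        by_contra hcon
        have h2 : ‖es (1 / 2 + δ + t * Complex.I) A0‖ = 0 := le_antisymm (not_lt.mp hcon) (norm_nonneg _)
        rw [h2] at h1
        norm_num at h1
        linarith only [h1, hε1]) (fun t => (hPA _ (hre t)).2) (hE.trans (he1.trans (by norm_num))) hX1 t3.1 hW hQ1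
    refine arith_low hε hε1 hX2 (mul_nonneg ((by norm_num : (0:ℝ) ≤ 9 / 10).trans hip9) hEV0.le) hY0 hI0 h14 ?_ hE
      k3 k4 hMX hMX' f2 f4 f5 hQ2 hw
    rw [Real.rpow_one] at t8
    have h8 := mul_le_mul_of_nonneg_left t8 (half_pos hε).le
    have e8 : ε / 2 * (2 / ε * T ^ ((4:ℝ) / 5)) = T ^ ((4:ℝ) / 5) := by field_simp
    rw [e8] at h8
    linarith only [h8]
  · intro hα1
    have hw := win_up (Q := C * (T * Real.log T ^ (α ^ 2)) * (N : ℝ) ^ (-(2 * δ))) (ε := ε) (τ := ε) hS hA hAm hm0 hmK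
      hδ0.le hδ2 hα hα1 hε (fun t => (hPA _ (hre t)).1) (hε1.trans (by norm_num))
      (h4.trans (hε1.trans (by norm_num))) (hE.trans (he1.trans (by norm_num))) hX1 t3.1 hW hQ1
    exact arith_up hε hε1 hα.le hα1 hX2 hY0 hI0 h4 k1 k2 hMX f1 f2 hQ2 hw

/-- the upper bound over a window for the exponents between two and four -/
theorem win_main4U {α₀ : ℝ} (hα₀ : 0 < α₀) {ε : ℝ} (hε : 0 < ε) (hε1 : ε ≤ 1 / 10) :
    ∃ ρ : ℝ, 0 < ρ ∧ ρ < α₀ ∧ ∃ lam : ℝ, 1 ≤ lam ∧ ∀ᶠ T : ℝ in atTop, ∀ α : ℝ, |α - α₀| ≤ ρ → 1 ≤ α → α ≤ 2 →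
      ∀ δ : ℝ, lam / Real.log T ≤ δ → δ ≤ 1 / 16 →
      ∫ t in (T ^ ((4:ℝ)/5))..(T / 2), zn (1 / 2 + δ) t ^ (2 * α) ≤ (1 + 13 * ε) * (T / 2 * DD α δ) := by
  set e := ε ^ 2 with he
  have he0 : 0 < e := by positivity
  have he1 : e ≤ 1 / 100 := by rw [he]; nlinarith
  obtain ⟨c, hc, hpar⟩ := par_ex
  obtain ⟨z1, R1, hET⟩ := ET_small hc he0
  obtain ⟨z1', R1', hET4⟩ := ET4_small hc he0
  obtain ⟨z2, x0, hx0, hcmp⟩ := cmpU (ε := ε / 4) (by positivity)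
  set z : ℕ := max (max (max z1 z1') z2) 1000 with hz
  have hz1000 : 1000 ≤ z := le_max_right _ _
  have hzz1 : z1 ≤ z := (le_max_left _ _).trans ((le_max_left _ _).trans (le_max_left _ _))
  have hzz1' : z1' ≤ z := (le_max_right _ _).trans ((le_max_left _ _).trans (le_max_left _ _))
  have hzz2 : z2 ≤ z := (le_max_right _ _).trans (le_max_left _ _)
  obtain ⟨Rs, hRok, hR, h4, h14⟩ := Rs_exists (c := c) hε (max R1 R1')
  have hR1 : R1 ≤ Rs := (le_max_left _ _).trans hR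
  have hR1' : R1' ≤ Rs := (le_max_right _ _).trans hR
  have hRs1 : 1 ≤ Rs := hRok.1
  obtain ⟨ρ, hρ0, hρα, A0, m0, hA', hAm, hsx⟩ := small_exU hα₀ z (ε := ε / 4) (by positivity)
  set m : ℝ := max m0 1 with hm
  have hA : Bd1 m A0 := hA'.mono (le_max_left _ _)
  have hm0 : 0 ≤ m := le_trans zero_le_one (le_max_right _ _)
  obtain ⟨η0, hη0, hQ⟩ := hpa4 (z := z) (by omega)
  have hRp : (0:ℝ) < (Rs:ℝ) + 1 := by positivity
  set η : ℝ := min η0 (1 / 16000) / ((Rs:ℝ) + 1) with hηd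
  have hq0 : 0 < min η0 (1 / 16000) := lt_min hη0 (by norm_num)
  have hη : 0 < η := by positivity
  have hηe : η * ((Rs:ℝ) + 1) = min η0 (1 / 16000) := by rw [hηd]; field_simp
  have hη1 : η * ((Rs:ℝ) + 1) ≤ η0 := by rw [hηe]; exact min_le_left _ _
  have hη2 : η * ((Rs:ℝ) + 1) ≤ 1 / 16000 := by rw [hηe]; exact min_le_right _ _
  have hη16 : η ≤ 1 / 16 := by
    have : η * 1 ≤ η * ((Rs:ℝ) + 1) := mul_le_mul_of_nonneg_left (by
      have : (0:ℝ) ≤ Rs := Nat.cast_nonneg _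
      linarith) hη.le
    linarith
  obtain ⟨d, hd, hpar2⟩ := hpar z Rs hz1000 hRs1 η hη hη16
  obtain ⟨C, hC, hQ⟩ := hQ c d η m Rs A0 hc hd hRs1 hη hη1 hη2 hA hAm
  obtain ⟨c2, hc2, hDD⟩ := DD_lowU
  obtain ⟨l1, hl1⟩ := lam_ex (s := 4) (b := 2 / 9) (C := C / c2) (e := e) (by norm_num) he0
  obtain ⟨l2, hl2⟩ := exp_ex (C := 15 * d) hη he0
  set lam : ℝ := max 1 (max l1 (max l2 (x0 / η))) with hlam
  have hlam1 : 1 ≤ lam := le_max_left _ _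
  have hlaml1 : l1 ≤ lam := (le_max_left _ _).trans (le_max_right _ _)
  have hlaml2 : l2 ≤ lam := (le_max_left _ _).trans ((le_max_right _ _).trans (le_max_right _ _))
  have hlamx : x0 / η ≤ lam := (le_max_right _ _).trans ((le_max_right _ _).trans (le_max_right _ _))
  refine ⟨ρ, hρ0, hρα, lam, hlam1, ?_⟩
  set LP := l1' (Pz z ^ 2 * A0) with hLP
  set l := l1' A0 with hl
  set K0 : ℝ := 4 * LP ^ 2 + 4 * m * l ^ 2 with hK0
  set sz : ℝ := (4 ^ (S0 z).card * l) ^ 2 with hsz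
  have hsz0 : 0 ≤ sz := sq_nonneg _
  filter_upwards [hpar2, hQ, windows_ev, eventually_ge_atTop (10 ^ 10), NT_ev (max 1 (max m (sz / (e * (9 / 10))))),
    rpow_ev (p := 2 / 3) (q := 1) (by norm_num) (2 * K0 / e),
    Real.tendsto_log_atTop.eventually_ge_atTop 1] with T t1 t2 t3 t4 t5 t7 t9 α hαρ hα1 hα2 δ hδ1 hδ2
  obtain ⟨J, hS, hV, hWd⟩ := t1
  have hα : 0 < α := by linarith
  have hα4 : α ^ 2 ≤ 4 := by nlinarith
  obtain ⟨hPA', hip⟩ := hsx α hαρ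
  have hPA : ∀ s : ℂ, 1 / 2 ≤ s.re → 1 - ε ≤ ‖es s (Pz z)‖ ^ (2 * α) * ‖es s A0‖ ^ 2 := fun s hs => by
    linarith [(hPA' s hs).1]
  have hT0 : 0 < T := by linarith
  have hT1 : 1 ≤ T := by linarith
  have hL0 : 0 < Real.log T := by linarith
  have hx : lam ≤ δ * Real.log T := by rwa [div_le_iff₀ hL0] at hδ1
  have hδ0 : 0 < δ := by
    by_contra hcon
    have := mul_nonpos_of_nonpos_of_nonneg (not_lt.mp hcon) hL0.le
    linarith
  set y := yT η T with hy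
  set N := NT T with hN
  set K := KT T with hK
  have hly : Real.log y = η * Real.log T := Real.log_exp _
  have hE := hET z hzz1 Rs hR1 y J hS.rg
  have hE0 := ET_nonneg c z y J Rs
  have hE4 := hET4 z hzz1' Rs hR1' y J hS.rg
  have hE40 := ET4_nonneg c z y J Rs
  have hcm := hcmp z hzz2 hz1000 α hα hα2 y δ hS.zy hδ0 (by
    rw [hly]
    have h1 : x0 ≤ lam * η := by rwa [div_le_iff₀ hη] at hlamx
    calc x0 ≤ lam * η := h1
      _ ≤ (δ * Real.log T) * η := mul_le_mul_of_nonneg_right hx hη.le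
      _ = _ := by ring) J hS.J1
  have hNr : (1:ℝ) ≤ N := (le_max_left _ _).trans t5.1
  have hmN : m ≤ N := ((le_max_left _ _).trans (le_max_right _ _)).trans t5.1
  have hszN : sz / (e * (9 / 10)) ≤ N := ((le_max_right _ _).trans (le_max_right _ _)).trans t5.1
  have hNK : (N:ℝ) < 2 ^ (K + 1) := by
    have : ((N : ℕ) : ℝ) < ((2 ^ (K + 1) : ℕ) : ℝ) := by exact_mod_cast hS.NK
    push_cast at this
    exact this
  have hmK : m < 2 ^ (K + 1) := by linarith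
  -- sizes
  set ip0 := ip δ A0 A0 with hip0
  set P0 := ∏ p ∈ S0 z, Ed α δ p with hP0
  obtain ⟨hi1, hi2⟩ := hip δ hδ0.le
  have hP01 : 1 ≤ P0 := by
    have := prod_le_prod (s := S0 z) (f := fun _ => (1:ℝ)) (g := fun p => Ed α δ p) (fun _ _ => zero_le_one)
      (fun p hp => Ed_ge_one hδ0.le (mem_S0.mp hp).2)
    simpa using this
  have hip9 : 9 / 10 ≤ ip0 := ax9 (ε := ε / 4) (by positivity) (by linarith) hP01 hi1
  set EV := Real.exp (α ^ 2 * Vd δ z y J) with hEV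
  have hEV0 : 0 < EV := Real.exp_pos _
  have hDD1 : 1 ≤ DD α δ := DD_ge_one hα hδ0
  set D := DD α δ with hD
  have hMup : ip0 * EV ≤ (1 + 2 * ε) * D := up_two hε hε1 hEV0.le (zero_le_one.trans hDD1) hi2 hcm.2
  -- the tail
  have hv : 15 * vd δ (Rst N y) ≤ e := by
    have h1 := vd_rst hδ0.le hS.y1 (P := Rst N y) fun p hp => ⟨Rst_prime p hp, (mem_Rst.mp hp).2⟩
    rw [hly] at h1
    have h2 := hl2 (δ * Real.log T) (hlaml2.trans hx)
    have h3 : Real.exp (-(2 * (δ * (η * Real.log T)))) * vd 0 (Rst N y) ≤ Real.exp (-(2 * (δ * (η * Real.log T)))) * d :=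
      mul_le_mul_of_nonneg_left hWd (Real.exp_pos _).le
    have e1 : δ * (η * Real.log T) = δ * Real.log T * η := by ring
    rw [e1] at h1 h3
    linarith
  have hv0 := vd_nonneg δ (Rst N y)
  -- small primes
  have hsm : sz / 2 ^ (K + 1) ≤ e * ip0 := by
    have hN0 : (0:ℝ) < N := lt_of_lt_of_le one_pos hNr
    have h1 : sz / 2 ^ (K + 1) ≤ sz / N := div_le_div_of_nonneg_left hsz0 hN0 hNK.le
    have h2 : sz / N ≤ e * (9 / 10) := by
      rw [div_le_iff₀ hN0]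
      rw [div_le_iff₀ (mul_pos he0 (by norm_num))] at hszN
      rwa [mul_comm]
    have h3 : e * (9 / 10) ≤ e * ip0 := mul_le_mul_of_nonneg_left hip9 he0.le
    exact h1.trans (h2.trans h3)
  have e15 : 2 * (15 / 2 * vd δ (Rst N y)) = 15 * vd δ (Rst N y) := by ring
  have hip0' : 0 ≤ ip0 := (by norm_num : (0:ℝ) ≤ 9 / 10).trans hip9
  have hszK : 0 ≤ sz / 2 ^ (K + 1) := div_nonneg hsz0 (pow_nonneg (by norm_num) _)
  obtain ⟨k1, -, -, -⟩ := coef (E := α ^ 2 * Vd δ z y J) he0 he1 hip0' hszK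
    hsm hE40 hE4 (mul_nonneg (by norm_num) hv0 : 0 ≤ 15 / 2 * vd δ (Rst N y)) (by rw [e15]; exact hv)
  rw [e15] at k1
  obtain ⟨-, k2, -, -⟩ := coef (E := α ^ 2 * Vd δ z y J) he0 he1 hip0' hszK
    hsm hE0 hE hv0 (by linarith only [hv, hv0])
  -- the difference
  have hQ1 := t2 J hS hV hWd (hE4.trans (by linarith)) (α - 2) (by rw [abs_le]; constructor <;> linarith) (by linarith) δ
    (le_trans (div_le_div_of_nonneg_right hlam1 hL0.le) hδ1) hδ2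
  have e0 : 2 + (α - 2) = α := by ring
  rw [e0] at hQ1
  have hX2 : (0:ℝ) ≤ T / 2 := by linarith
  set Y := T / 2 * D with hYd
  have hY0 : 0 ≤ Y := mul_nonneg hX2 (zero_le_one.trans hDD1)
  have hQ2 : C * (T * Real.log T ^ (α ^ 2)) * (N : ℝ) ^ (-(2 * δ)) ≤ 2 * ε ^ 2 * Y :=
    tail_term hC hc2 hα4 he0 hl1 hlam1 hlaml1 hx hT0 hL0 hδ0 t5.2 (hDD α hα hα2 δ hδ0 (hδ2.trans (by norm_num)))
  -- errors
  set W := T ^ ((1:ℝ) / 50) with hWdef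
  have hW : Real.exp (Real.log y * (180 * ((Rs:ℝ) + 1))) ≤ W := ly_exp hT1 hη2
  have hW0 : 0 < W := Real.rpow_pos_of_pos hT0 _
  have hK0T : K0 * T ^ ((2:ℝ) / 3) ≤ ε ^ 2 * Y := by
    rw [Real.rpow_one] at t7
    have h1 : K0 * T ^ ((2:ℝ) / 3) ≤ e * (T / 2) := by
      have h2 := mul_le_mul_of_nonneg_left t7 (half_pos he0).le
      calc K0 * T ^ ((2:ℝ) / 3) = e / 2 * (2 * K0 / e * T ^ ((2:ℝ) / 3)) := by field_simp
        _ ≤ e / 2 * T := h2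
        _ = e * (T / 2) := by ring
    have h3 : e * (T / 2) ≤ e * (T / 2) * D := le_mul_of_one_le_right (mul_nonneg he0.le hX2) hDD1
    calc K0 * T ^ ((2:ℝ) / 3) ≤ e * (T / 2) * D := h1.trans h3
      _ = ε ^ 2 * Y := by rw [hYd, he]; ring
  obtain ⟨f1, f2⟩ := errs4 (LP := LP) (l := l) hT1 hm0 hK0T
  have hMX : T / 2 * (ip0 * EV) ≤ (1 + 2 * ε) * Y := by
    calc _ ≤ T / 2 * ((1 + 2 * ε) * D) := mul_le_mul_of_nonneg_left hMup hX2
      _ = _ := by rw [hYd]; ring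
  have hX1 : 0 ≤ T ^ ((4:ℝ)/5) := by positivity
  have hI0 : 0 ≤ ∫ t in (T ^ ((4:ℝ)/5))..(T / 2), zn (1 / 2 + δ) t ^ (2 * α) :=
    intervalIntegral.integral_nonneg t3.1 fun t _ => Real.rpow_nonneg (zn_nonneg _ _) _
  have hre : ∀ t : ℝ, (1:ℝ) / 2 ≤ (1 / 2 + (δ:ℂ) + t * Complex.I).re := fun t => by
    rw [half_re]; linarith only [hδ0]
  have hw := win_up4 (Q := C * (T * Real.log T ^ (α ^ 2)) * (N : ℝ) ^ (-(2 * δ))) (ε := ε) (τ := ε) hS hA hAm hm0 hmK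
    hδ0.le hδ2 hα1 hα2 hε (fun t => hPA _ (hre t)) (hε1.trans (by norm_num)) (h4.trans (hε1.trans (by norm_num)))
    (hE.trans (he1.trans (by norm_num))) hX1 t3.1 hW hQ1
  exact arith_up hε hε1 (by linarith only [hα1] : 0 ≤ α / 2) (by linarith only [hα2]) hX2 hY0 hI0 h4 k1 k2 hMX f1 f2 hQ2 hw

/-- both bounds -/
theorem win_allU {α₀ : ℝ} (hα₀ : 0 < α₀) {ε : ℝ} (hε : 0 < ε) (hε1 : ε ≤ 1 / 10) :
    ∃ ρ : ℝ, 0 < ρ ∧ ρ < α₀ ∧ ∃ lam : ℝ, 1 ≤ lam ∧ ∀ᶠ T : ℝ in atTop, ∀ α : ℝ, |α - α₀| ≤ ρ → α ≤ 2 →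
      ∀ δ : ℝ, lam / Real.log T ≤ δ → δ ≤ 1 / 16 →
      (1 - 64 * ε) * (T / 2 * DD α δ) ≤ ∫ t in (T ^ ((4:ℝ)/5))..(T / 2), zn (1 / 2 + δ) t ^ (2 * α) ∧
      ∫ t in (T ^ ((4:ℝ)/5))..(T / 2), zn (1 / 2 + δ) t ^ (2 * α) ≤ (1 + 13 * ε) * (T / 2 * DD α δ) := by
  obtain ⟨ρ₁, h1, h1', l₁, hl1, g1⟩ := win_mainU hα₀ hε hε1
  obtain ⟨ρ₂, h2, h2', l₂, hl2, g2⟩ := win_main4U hα₀ hε hε1
  refine ⟨min ρ₁ ρ₂, lt_min h1 h2, (min_le_left _ _).trans_lt h1', max l₁ l₂, hl1.trans (le_max_left _ _), ?_⟩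
  filter_upwards [g1, g2, eventually_gt_atTop 1] with T k1 k2 hT α hα hα2 δ hδ1 hδ2
  have hL := Real.log_pos hT
  have a1 : l₁ / Real.log T ≤ δ := (div_le_div_of_nonneg_right (le_max_left _ _) hL.le).trans hδ1
  have a2 : l₂ / Real.log T ≤ δ := (div_le_div_of_nonneg_right (le_max_right _ _) hL.le).trans hδ1
  have b1 : |α - α₀| ≤ ρ₁ := hα.trans (min_le_left _ _)
  have b2 : |α - α₀| ≤ ρ₂ := hα.trans (min_le_right _ _)
  obtain ⟨m1, m2⟩ := k1 α b1 hα2 δ a1 hδ2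
  refine ⟨m1, ?_⟩
  rcases le_total α 1 with h | h
  · exact m2 h
  · exact k2 α b2 h hα2 δ a2 hδ2

end Pool.Agent.Q273.LU
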