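import Pool.Agent.Q273.LU.A3

set_option autoImplicit false

/-! The moments near the critical line, uniformly in the exponent near a given one. -/

namespace Pool.Agent.Q273.LU

open Finset Filter MeasureTheory Topology
open Pool.Agent.Y755
open Pool.Agent.W184.NZ
open Pool.Agent.W184 (zn zn_nonneg zn_cont zn_le')
open Pool.Agent.H306R2 (aF aF_pos)

/-- the window ending at `X` -/
theorem win_XU {α₀ : ℝ} (hα₀ : 0 < α₀) {ε : ℝ} (hε : 0 < ε) :
    ∃ ρ : ℝ, 0 < ρ ∧ ρ < α₀ ∧ ∃ lam : ℝ, 1 ≤ lam ∧ ∀ᶠ X : ℝ in atTop, ∀ α : ℝ, |α - α₀| ≤ ρ →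
      α ≤ 2 → ∀ δ : ℝ, lam / Real.log X ≤ δ → δ ≤ 1 / 16 →
      (1 - ε) * (X * DD α δ) ≤ ∫ t in ((2 * X) ^ ((4:ℝ)/5))..X, zn (1 / 2 + δ) t ^ (2 * α) ∧
      ∫ t in ((2 * X) ^ ((4:ℝ)/5))..X, zn (1 / 2 + δ) t ^ (2 * α) ≤ (1 + ε) * (X * DD α δ) := by
  set e := min (ε / 64) (1 / 10) with he
  have he0 : 0 < e := lt_min (by positivity) (by norm_num)
  have he1 : 64 * e ≤ ε := by have := min_le_left (ε / 64) (1 / 10); linarith
  obtain ⟨ρ, hρ, hρα, lam, hl1, hw⟩ := win_allU hα₀ he0 (min_le_right _ _)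
  refine ⟨ρ, hρ, hρα, lam, hl1, ?_⟩
  filter_upwards [two_mul_tendsto.eventually hw, Real.tendsto_log_atTop.eventually_ge_atTop 1, eventually_gt_atTop 0]
    with X h1 h2 h3 α hα hα2 δ hδ1 hδ2
  have h4 : lam / Real.log (2 * X) ≤ δ := by
    refine le_trans (div_le_div_of_nonneg_left (by linarith) (by linarith) ?_) hδ1
    exact Real.log_le_log h3 (by linarith)
  obtain ⟨h5, h6⟩ := h1 α hα hα2 δ h4 hδ2
  have e1 : 2 * X / 2 = X := by ring
  rw [e1] at h5 h6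
  have hδ0 : 0 < δ := lt_of_lt_of_le (div_pos (by linarith) (by linarith)) hδ1
  have hα0 : 0 < α := by
    have := (abs_le.mp hα).1
    linarith
  have hD := DD_ge_one hα0 hδ0
  have hXD : 0 ≤ X * DD α δ := by positivity
  refine ⟨le_trans ?_ h5, h6.trans ?_⟩
  · exact mul_le_mul_of_nonneg_right (by linarith) hXD
  · exact mul_le_mul_of_nonneg_right (by linarith) hXD

/-- the whole interval -/
theorem fullU {α₀ : ℝ} (hα₀ : 0 < α₀) {ε : ℝ} (hε : 0 < ε) :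
    ∃ ρ : ℝ, 0 < ρ ∧ ρ < α₀ ∧ ∃ lam : ℝ, 1 ≤ lam ∧ ∀ᶠ X : ℝ in atTop, ∀ α : ℝ, |α - α₀| ≤ ρ →
      α ≤ 2 → ∀ δ : ℝ, lam / Real.log X ≤ δ → δ ≤ 1 / 16 →
      (1 - ε) * (X * DD α δ) ≤ ∫ t in (0:ℝ)..X, zn (1 / 2 + δ) t ^ (2 * α) ∧
      ∫ t in (0:ℝ)..X, zn (1 / 2 + δ) t ^ (2 * α) ≤ (1 + ε) * (X * DD α δ) := by
  set e := min (ε / 4) 1 with he
  have he0 : 0 < e := lt_min (by positivity) one_pos
  have he1 : e ≤ ε / 4 := min_le_left _ _
  have he2 : e ≤ 1 := min_le_right _ _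
  obtain ⟨ρ, hρ, hρα, lam, hl1, hw⟩ := win_XU hα₀ he0
  refine ⟨ρ, hρ, hρα, 8 * lam, by linarith, ?_⟩
  have hev := (hw.and ((rpow_ev (p := 4 / 5) (q := 1) (by norm_num) 4).and (eventually_ge_atTop 1)))
  rw [eventually_atTop] at hev
  obtain ⟨X0, hX0⟩ := hev
  have ht4 : Tendsto (fun X : ℝ => X ^ ((1:ℝ) / 8)) atTop atTop := tendsto_rpow_atTop (by norm_num)
  filter_upwards [ht4.eventually_ge_atTop X0, rpow_ev (p := 4 / 5) (q := 1) (by norm_num) (8 / (ε / 4)),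
    rpow_ev (p := 5 / 8) (q := 1) (by norm_num) (331776 / (ε / 4)), eventually_ge_atTop 3] with X h1 h2 h3 h4 α hα' hα2 δ hδ1 hδ2
  have hα : 0 < α := by
    have := (abs_le.mp hα').1
    linarith
  have hXp : 0 < X := by linarith
  have hX1 : 1 ≤ X := by linarith
  have hL0 : 0 < Real.log X := Real.log_pos (by linarith)
  have hδ0 : 0 < δ := lt_of_lt_of_le (div_pos (by linarith) hL0) hδ1
  have hD := DD_ge_one hα hδ0
  set D := DD α δ
  have hX4 : X ^ ((1:ℝ) / 8) ≤ X := by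
    have := Real.rpow_le_rpow_of_exponent_le hX1 (show (1:ℝ) / 8 ≤ 1 by norm_num)
    rwa [Real.rpow_one] at this
  have hi : ∀ a b : ℝ, IntervalIntegrable (fun t => zn (1 / 2 + δ) t ^ (2 * α)) volume a b := fun a b =>
    (znp_cont (by linarith) (by linarith)).intervalIntegrable _ _
  have hwin : ∀ Y : ℝ, X ^ ((1:ℝ) / 8) ≤ Y → Y ≤ X →
      (2 * Y) ^ ((4:ℝ)/5) ≤ Y / 2 ∧
      (1 - e) * (Y * D) ≤ ∫ t in ((2 * Y) ^ ((4:ℝ)/5))..Y, zn (1 / 2 + δ) t ^ (2 * α) ∧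
      ∫ t in ((2 * Y) ^ ((4:ℝ)/5))..Y, zn (1 / 2 + δ) t ^ (2 * α) ≤ (1 + e) * (Y * D) := by
    intro Y hY1 hY2
    obtain ⟨g1, g2, g3⟩ := hX0 Y (h1.trans hY1)
    have hY0 : 0 < Y := by linarith
    constructor
    · rw [Real.rpow_one] at g2
      rw [Real.mul_rpow (by norm_num) hY0.le]
      have h5 : (2:ℝ) ^ ((4:ℝ)/5) ≤ 2 := by
        have := Real.rpow_le_rpow_of_exponent_le (show (1:ℝ) ≤ 2 by norm_num) (show (4:ℝ)/5 ≤ 1 by norm_num)
        rwa [Real.rpow_one] at this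
      have h6 : (2:ℝ) ^ ((4:ℝ)/5) * Y ^ ((4:ℝ)/5) ≤ 2 * Y ^ ((4:ℝ)/5) := mul_le_mul_of_nonneg_right h5 (by positivity)
      linarith
    · refine g1 α hα' hα2 δ ?_ hδ2
      refine le_trans ?_ hδ1
      have h5 : Real.log X / 8 ≤ Real.log Y := by
        have := Real.log_le_log (by positivity) hY1
        rw [Real.log_rpow hXp] at this
        linarith
      rw [div_le_div_iff₀ (by linarith) hL0]
      nlinarith
  obtain ⟨g1, g2', g2⟩ := hwin X hX4 le_rfl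
  constructor
  · refine le_trans ?_ (g2'.trans ?_)
    · exact mul_le_mul_of_nonneg_right (by linarith) (by positivity)
    · exact intervalIntegral.integral_mono_interval (by positivity) (by linarith) le_rfl
        (Filter.Eventually.of_forall fun t => Real.rpow_nonneg (zn_nonneg _ _) _) (hi _ _)
  have hclaim : ∀ n : ℕ, ∀ Y : ℝ, 0 ≤ Y → Y ≤ X → Y ≤ 2 ^ n * X ^ ((1:ℝ) / 8) →
      ∫ t in (0:ℝ)..Y, zn (1 / 2 + δ) t ^ (2 * α) ≤ 4 * (Y * D) + 331776 * X ^ ((5:ℝ) / 8) := by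
    intro n
    induction n with
    | zero =>
      intro Y hY0 _ hY1
      rw [pow_zero, one_mul] at hY1
      have := small_int4 hα hα2 hδ0 hδ2 hX1 hY0 hY1
      have : 0 ≤ Y * D := by positivity
      linarith
    | succ n ih =>
      intro Y hY0 hYX hY1
      rcases le_or_gt Y (X ^ ((1:ℝ) / 8)) with h5 | h5
      · have := small_int4 hα hα2 hδ0 hδ2 hX1 hY0 h5
        have : 0 ≤ Y * D := by positivity
        linarith
      · obtain ⟨g1, -, g2⟩ := hwin Y h5.le hYX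
        have g3 := ih (Y / 2) (by linarith) (by linarith) (by rw [pow_succ] at hY1; linarith)
        have g4 := intervalIntegral.integral_add_adjacent_intervals (hi 0 (Y / 2)) (hi (Y / 2) Y)
        have g5 : ∫ t in (Y / 2)..Y, zn (1 / 2 + δ) t ^ (2 * α) ≤ ∫ t in ((2 * Y) ^ ((4:ℝ)/5))..Y, zn (1 / 2 + δ) t ^ (2 * α) :=
          intervalIntegral.integral_mono_interval g1 (by linarith) le_rfl
            (Filter.Eventually.of_forall fun t => Real.rpow_nonneg (zn_nonneg _ _) _) (hi _ _)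
        have g6 : (1 + e) * (Y * D) ≤ 2 * (Y * D) := mul_le_mul_of_nonneg_right (by linarith) (by positivity)
        linarith
  obtain ⟨n, hn⟩ : ∃ n : ℕ, X ≤ 2 ^ n * X ^ ((1:ℝ) / 8) := by
    obtain ⟨n, hn⟩ := exists_nat_gt X
    refine ⟨n, ?_⟩
    have h5 : (n:ℝ) ≤ 2 ^ n := by
      have : n < 2 ^ n := Nat.lt_two_pow_self
      exact_mod_cast this.le
    have h6 : 1 ≤ X ^ ((1:ℝ) / 8) := Real.one_le_rpow hX1 (by norm_num)
    nlinarith
  have hY0 : 0 ≤ (2 * X) ^ ((4:ℝ)/5) := by positivity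
  have g3 := hclaim n ((2 * X) ^ ((4:ℝ)/5)) hY0 (by linarith) (by linarith)
  have g4 := intervalIntegral.integral_add_adjacent_intervals (hi 0 ((2 * X) ^ ((4:ℝ)/5))) (hi ((2 * X) ^ ((4:ℝ)/5)) X)
  rw [Real.rpow_one] at h2 h3
  have g5 : 4 * ((2 * X) ^ ((4:ℝ)/5) * D) ≤ ε / 4 * (X * D) := by
    rw [Real.mul_rpow (by norm_num) hXp.le]
    have h5 : (2:ℝ) ^ ((4:ℝ)/5) ≤ 2 := by
      have := Real.rpow_le_rpow_of_exponent_le (show (1:ℝ) ≤ 2 by norm_num) (show (4:ℝ)/5 ≤ 1 by norm_num)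
      rwa [Real.rpow_one] at this
    have h6 := mul_le_mul_of_nonneg_left h2 (by positivity : 0 ≤ ε / 4)
    have e6 : ε / 4 * (8 / (ε / 4) * X ^ ((4:ℝ) / 5)) = 8 * X ^ ((4:ℝ) / 5) := by field_simp
    rw [e6] at h6
    have h7 : (2:ℝ) ^ ((4:ℝ)/5) * X ^ ((4:ℝ)/5) ≤ 2 * X ^ ((4:ℝ)/5) := mul_le_mul_of_nonneg_right h5 (by positivity)
    calc 4 * ((2:ℝ) ^ ((4:ℝ)/5) * X ^ ((4:ℝ)/5) * D) = 4 * ((2:ℝ) ^ ((4:ℝ)/5) * X ^ ((4:ℝ)/5)) * D := by ring
      _ ≤ (ε / 4 * X) * D := mul_le_mul_of_nonneg_right (by linarith) (by linarith)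
      _ = _ := by ring
  have g6 : 331776 * X ^ ((5:ℝ) / 8) ≤ ε / 4 * (X * D) := by
    have h6 := mul_le_mul_of_nonneg_left h3 (by positivity : 0 ≤ ε / 4)
    have e6 : ε / 4 * (331776 / (ε / 4) * X ^ ((5:ℝ) / 8)) = 331776 * X ^ ((5:ℝ) / 8) := by field_simp
    rw [e6] at h6
    have h7 : X ≤ X * D := le_mul_of_one_le_right hXp.le hD
    calc _ ≤ ε / 4 * X := h6
      _ ≤ ε / 4 * (X * D) := mul_le_mul_of_nonneg_left h7 (by positivity)
  have g7 : (1 + e) * (X * D) ≤ (1 + ε / 4) * (X * D) := mul_le_mul_of_nonneg_right (by linarith) (by positivity)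
  have hXD : 0 ≤ X * D := by positivity
  nlinarith

lemma small_xU (x : ℝ) : ∃ C : ℝ, 0 ≤ C ∧ ∀ α : ℝ, 0 < α → α ≤ 2 → ∀ δ : ℝ, 0 < δ → δ ≤ 1 / 16 →
    |∫ t in (0:ℝ)..x, zn (1 / 2 + δ) t ^ (2 * α)| ≤ C := by
  refine ⟨(12 * (1 + |x|)) ^ (4:ℝ) * |x|, by positivity, fun α hα hα2 δ hδ hδ1 => ?_⟩
  have h0 : 1 ≤ 12 * (1 + |x|) := by linarith [abs_nonneg x]
  have h1 : ∀ t ∈ Set.uIoc (0:ℝ) x, ‖zn (1 / 2 + δ) t ^ (2 * α)‖ ≤ (12 * (1 + |x|)) ^ (4:ℝ) := by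
    intro t ht
    rw [Real.norm_of_nonneg (Real.rpow_nonneg (zn_nonneg _ _) _)]
    have hz := zn_le' (σ := 1 / 2 + δ) (t := t) (by linarith) (by linarith)
    have ht2 : |t| ≤ |x| := by
      rcases Set.mem_uIoc.mp ht with h | h
      · rw [abs_of_pos h.1, abs_of_pos (lt_of_lt_of_le h.1 h.2)]; exact h.2
      · rw [abs_of_nonpos h.2, abs_of_neg (lt_of_lt_of_le h.1 h.2)]; linarith [h.1]
    calc zn (1 / 2 + δ) t ^ (2 * α) ≤ (12 * (1 + |x|)) ^ (2 * α) :=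
          Real.rpow_le_rpow (zn_nonneg _ _) (by linarith) (by positivity)
      _ ≤ (12 * (1 + |x|)) ^ (4:ℝ) := Real.rpow_le_rpow_of_exponent_le h0 (by linarith)
  have h2 := intervalIntegral.norm_integral_le_of_norm_le_const h1
  rwa [Real.norm_eq_abs, sub_zero] at h2

/-- the moments, uniformly in the exponent near a given one -/
theorem momU {α₀ : ℝ} (hα₀ : 0 < α₀) {ε : ℝ} (hε : 0 < ε) :
    ∃ ρ : ℝ, 0 < ρ ∧ ρ < α₀ ∧ ∃ lam : ℝ, 1 ≤ lam ∧ ∀ x : ℝ, ∀ᶠ T : ℝ in atTop, ∀ α : ℝ, |α - α₀| ≤ ρ →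
      α ≤ 2 → ∀ δ : ℝ, lam / Real.log T ≤ δ → δ ≤ 1 / 16 →
      |mom (2 * α) (1 / 2 + δ) x T - DD α δ| ≤ ε * DD α δ := by
  set e := min (ε / 4) (1 / 2) with he
  have he0 : 0 < e := lt_min (by positivity) (by norm_num)
  have he1 : e ≤ ε / 4 := min_le_left _ _
  have he2 : e ≤ 1 / 2 := min_le_right _ _
  obtain ⟨ρ, hρ, hρα, lam, hl1, hw⟩ := fullU hα₀ he0
  refine ⟨ρ, hρ, hρα, 2 * lam, by linarith, fun x => ?_⟩
  obtain ⟨C, hC0, hC⟩ := small_xU x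
  filter_upwards [shift_ev x (C := C) hl1 he0 hw] with T h α hα' hα2 δ hδ1 hδ2
  obtain ⟨h1, h2, h3, h4, h5, h6, h7, h8⟩ := h
  have hα : 0 < α := by
    have := (abs_le.mp hα').1
    linarith
  have hT0 : 0 < T := by linarith
  have hδ0 : 0 < δ := lt_of_lt_of_le (div_pos (by linarith) h6) hδ1
  have hD := DD_ge_one hα hδ0
  obtain ⟨g1, g1'⟩ := h1 α hα' hα2 δ (h8.trans hδ1) hδ2
  obtain ⟨g2', g2⟩ := abs_le.mp (hC α hα hα2 δ hδ0 hδ2)
  have hi : ∀ a b : ℝ, IntervalIntegrable (fun t => zn (1 / 2 + δ) t ^ (2 * α)) volume a b := fun a b =>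
    (znp_cont (by linarith) (by linarith)).intervalIntegrable _ _
  have g3 := intervalIntegral.integral_add_adjacent_intervals (hi 0 x) (hi x (T + x))
  rw [mom_eq _ _ _ hT0, inv_mul_eq_div]
  set D := DD α δ
  have hTD : T ≤ T * D := le_mul_of_one_le_right hT0.le hD
  have g5 : C ≤ e * (T * D) := h2.trans (mul_le_mul_of_nonneg_left hTD he0.le)
  have hTD0 : 0 ≤ T * D := by positivity
  rw [abs_le]
  constructor
  · have g4 : (1 - e) * ((1 - e) * T * D) ≤ (1 - e) * ((T + x) * D) :=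
      mul_le_mul_of_nonneg_left (mul_le_mul_of_nonneg_right h3 (by linarith)) (by linarith)
    have g6 : (1 - ε) * D * T ≤ (1 - e) * ((1 - e) * T * D) - e * (T * D) := by
      nlinarith [sq_nonneg e]
    rw [le_sub_iff_add_le, le_div_iff₀ hT0]
    linarith
  · have g4 : (1 + e) * ((T + x) * D) ≤ (1 + e) * ((1 + e) * T * D) :=
      mul_le_mul_of_nonneg_left (mul_le_mul_of_nonneg_right h4 (by linarith)) (by linarith)
    have g6 : (1 + e) * ((1 + e) * T * D) + e * (T * D) ≤ (1 + ε) * D * T := by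
      nlinarith [sq_nonneg e]
    rw [sub_le_iff_le_add, div_le_iff₀ hT0]
    linarith

/-- the moments along a path, with a varying exponent -/
theorem mom_joint {β : ℝ} (hβ : 0 < β) (x : ℝ) {b δ : ℝ → ℝ} (hb : Tendsto b atTop (𝓝 β))
    (hb4 : ∀ᶠ T in atTop, b T ≤ 4)
    (h1 : Tendsto δ atTop (𝓝 0)) (h2 : Tendsto (fun T => δ T * Real.log T) atTop atTop) :
    Tendsto (fun T => (2 * δ T) ^ (b T ^ 2 / 4) * mom (b T) (1 / 2 + δ T) x T) atTop (𝓝 (aF (β / 2))) := by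
  have hpos : ∀ᶠ T in atTop, 0 < δ T := by
    filter_upwards [h2.eventually_gt_atTop 0, eventually_gt_atTop 1] with T hT hT1
    exact (pos_iff_pos_of_mul_pos hT).mpr (Real.log_pos hT1)
  have hα₀ : 0 < β / 2 := by positivity
  have hb2 : Tendsto (fun T => b T / 2) atTop (𝓝 (β / 2)) := hb.div_const 2
  have hb0 := hb2.eventually (eventually_gt_nhds hα₀)
  have hb2' : ∀ᶠ T in atTop, b T / 2 ≤ 2 := hb4.mono fun T hT => by linarith
  have hD := DD_joint hα₀ hb2 hb2' h1 hpos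
  have hr : Tendsto (fun T => mom (b T) (1 / 2 + δ T) x T / DD (b T / 2) (δ T)) atTop (𝓝 1) := by
    rw [Metric.tendsto_nhds]
    intro ε hε
    obtain ⟨ρ, hρ, hρα, lam, hl1, hu⟩ := momU hα₀ (half_pos hε)
    filter_upwards [hu x, h2.eventually_ge_atTop lam, hpos, h1.eventually (gt_mem_nhds (show (0:ℝ) < 1 / 16 by norm_num)),
      eventually_gt_atTop 1, hb2.eventually (Metric.closedBall_mem_nhds (β / 2) hρ), hb0, hb2'] with
      T g1 g3 g4 g5 g6 g7 g8 g9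
    have hL := Real.log_pos g6
    rw [Real.dist_eq] at g7
    have a1 := g1 (b T / 2) g7 g9 (δ T) (by rw [div_le_iff₀ hL]; exact g3) g5.le
    have e0 : 2 * (b T / 2) = b T := by ring
    rw [e0] at a1
    have hD1 := DD_ge_one g8 g4
    have hD0 : 0 < DD (b T / 2) (δ T) := by linarith
    rw [Real.dist_eq]
    refine lt_of_le_of_lt ?_ (half_lt_self hε)
    have e1 : mom (b T) (1 / 2 + δ T) x T / DD (b T / 2) (δ T) - 1 =
        (mom (b T) (1 / 2 + δ T) x T - DD (b T / 2) (δ T)) / DD (b T / 2) (δ T) := by field_simp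
    rw [e1, abs_div, abs_of_pos hD0, div_le_iff₀ hD0]
    exact a1
  have h3 := hD.mul hr
  rw [mul_one] at h3
  refine h3.congr' ?_
  filter_upwards [hpos, hb0] with T hT hbT
  have hD1 := DD_ge_one hbT hT
  have : DD (b T / 2) (δ T) ≠ 0 := by linarith
  have e2 : (b T / 2) ^ 2 = b T ^ 2 / 4 := by ring
  rw [e2]
  field_simp

end Pool.Agent.Q273.LU
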