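import Pool.Agent.Q273.WL4

set_option autoImplicit false

/-!
The weighted law and the truncated moments for a general family whose moments of order near `β` are asymptotic to
`A exp (β ^ 2 / 4 * Λ)`.
-/

namespace Pool.Agent.Q273.LU

open MeasureTheory ProbabilityTheory Filter Topology Set
open Pool.Agent.Q273.WL

/-- **Curtiss, one-sided, on the left.** -/
theorem left_cdf {μ : ℕ → ProbabilityMeasure ℝ}
    (hi : ∀ n, ∀ s : ℝ, 0 < s → s ≤ 1 → Integrable (fun x => Real.exp (-s * x)) (μ n : Measure ℝ))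
    (h : ∀ s : ℝ, 0 < s → s ≤ 1 →
      Tendsto (fun n => ∫ x, Real.exp (-s * x) ∂(μ n : Measure ℝ)) atTop (𝓝 (Real.exp (s ^ 2 / 2)))) (y : ℝ) :
    Tendsto (fun n => (μ n : Measure ℝ).real (Set.Iic y)) atTop (𝓝 ((gaussianReal 0 1).real (Set.Iic y))) := by
  have hneg : Measurable fun x : ℝ => -x := measurable_neg
  set ν : ℕ → ProbabilityMeasure ℝ := fun n =>
    ⟨(μ n : Measure ℝ).map (fun x => -x), Measure.isProbabilityMeasure_map hneg.aemeasurable⟩ with hν
  have hνn : ∀ n, (ν n : Measure ℝ) = (μ n : Measure ℝ).map (fun x => -x) := fun n => rfl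
  have e0 : ∀ s x : ℝ, s * -x = -s * x := fun s x => by ring
  have c := curtiss (μ := ν) (fun n s h0 h1 => by
      rw [hνn, integrable_map_measure (by fun_prop) hneg.aemeasurable]
      refine (hi n s h0 h1).congr (ae_of_all _ fun x => ?_)
      simp only [Function.comp]
      rw [e0]) (fun s h0 h1 => by
      refine (h s h0 h1).congr fun n => ?_
      rw [hνn, integral_map hneg.aemeasurable (by fun_prop)]
      refine integral_congr_ae (ae_of_all _ fun x => ?_)
      show Real.exp (-s * x) = Real.exp (s * -x)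
      rw [e0])
  have h1 := ProbabilityMeasure.tendsto_measure_of_null_frontier_of_tendsto' c (E := Set.Ici (-y))
    (by
      rw [frontier_Ici]
      show (gaussianReal 0 1) {-y} = 0
      have := nullSingletonClass_gaussianReal (μ := 0) (v := 1) one_ne_zero
      exact measure_singleton _)
  have h2 := (ENNReal.tendsto_toReal (measure_ne_top _ _)).comp h1
  have hpre : (fun x : ℝ => -x) ⁻¹' Set.Ici (-y) = Set.Iic y := by
    ext x
    simp
  have e1 : ((stdN : Measure ℝ) (Set.Ici (-y))).toReal = (gaussianReal 0 1).real (Set.Iic y) := by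
    have h3 : (gaussianReal 0 1).map (fun x : ℝ => -x) = gaussianReal 0 1 := by
      rw [gaussianReal_map_neg, neg_zero]
    show (gaussianReal 0 1).real (Set.Ici (-y)) = _
    nth_rewrite 1 [← h3]
    rw [map_measureReal_apply hneg measurableSet_Ici, hpre]
  rw [e1] at h2
  refine h2.congr fun n => ?_
  show ((μ n : Measure ℝ).map (fun x => -x)).real (Set.Ici (-y)) = _
  rw [map_measureReal_apply hneg measurableSet_Ici, hpre]

/-- the weighted law along a sequence -/
theorem lawL {f : ℕ → ℝ → ℝ} (hf : ∀ n, Continuous (f n)) (hf0 : ∀ n u, 0 ≤ f n u) {b Λ : ℕ → ℝ}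
    (hb : ∀ n, 0 < b n) (hb' : ∀ n (s : ℝ), 0 ≤ s → s ≤ 1 → 0 < b n + -s / √(Λ n / 2))
    (hΛ : ∀ n, 0 < Λ n) (hA : ∀ n, 0 < ∫ u in (0:ℝ)..1, f n u ^ b n) {A : ℝ} (hA0 : 0 < A)
    (h : ∀ s : ℝ, 0 ≤ s → s ≤ 1 → Tendsto (fun n => (∫ u in (0:ℝ)..1, f n u ^ (b n + -s / √(Λ n / 2))) /
      Real.exp ((b n + -s / √(Λ n / 2)) ^ 2 / 4 * Λ n)) atTop (𝓝 A)) (y : ℝ) :
    Tendsto (fun n => tr (f n) (b n) (Real.exp (b n / 2 * Λ n + y * √(Λ n / 2))) /
      Real.exp (b n ^ 2 / 4 * Λ n)) atTop (𝓝 (A * Phi y)) := by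
  have hpr : ∀ n, IsProbabilityMeasure (wm (f n) (b n)) := fun n => wm_prob (hf n) (hf0 n) (hb n).le (hA n)
  set μ : ℕ → ProbabilityMeasure ℝ := fun n => lawP (f n) (b n) (Λ n) (hpr n) (nz_meas (hf n)) with hμ
  have hμn : ∀ n, (μ n : Measure ℝ) = (wm (f n) (b n)).map (nz (f n) (b n) (Λ n)) := fun n => rfl
  have h0 := h 0 le_rfl zero_le_one
  simp only [neg_zero, zero_div, add_zero] at h0
  have h0' : Tendsto (fun n => Real.exp (b n ^ 2 / 4 * Λ n) / ∫ u in (0:ℝ)..1, f n u ^ b n) atTop (𝓝 A⁻¹) := by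
    have := h0.inv₀ hA0.ne'
    refine this.congr fun n => ?_
    rw [inv_div]
  have hi : ∀ n, ∀ s : ℝ, 0 < s → s ≤ 1 → Integrable (fun x => Real.exp (-s * x)) (μ n : Measure ℝ) := by
    intro n s hs hs1
    rw [hμn, integrable_map_measure (by fun_prop) (nz_meas (hf n)).aemeasurable]
    exact expint_nz (hf n) (hf0 n) (hb n) (hΛ n) (hA n) (hb' n s hs.le hs1)
  have hm : ∀ s : ℝ, 0 < s → s ≤ 1 →
      Tendsto (fun n => ∫ x, Real.exp (-s * x) ∂(μ n : Measure ℝ)) atTop (𝓝 (Real.exp (s ^ 2 / 2))) := by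
    intro s hs hs1
    have h1 := ((h s hs.le hs1).mul h0').mul_const (Real.exp ((-s) ^ 2 / 2))
    rw [mul_inv_cancel₀ hA0.ne', one_mul, neg_sq] at h1
    refine h1.congr fun n => ?_
    rw [hμn, integral_map (nz_meas (hf n)).aemeasurable (by fun_prop),
      mgf_nz (hf n) (hf0 n) (hb n) (hΛ n) (hA n) (hb' n s hs.le hs1), neg_sq]
  have h2 := left_cdf hi hm y
  have h3 := h2.mul h0
  rw [mul_comm] at h3
  refine h3.congr fun n => ?_
  have e := lawP_Iic (hf n) (hf0 n) (hb n) (hΛ n) (hA n) (hpr n) y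
  show (lawP (f n) (b n) (Λ n) (hpr n) (nz_meas (hf n)) : Measure ℝ).real (Iic y) * _ = _
  rw [e]
  have := (hA n).ne'
  field_simp

/-- the moments of the normalised logarithm along a sequence -/
theorem momA {f : ℕ → ℝ → ℝ} (hf : ∀ n, Continuous (f n)) (hf0 : ∀ n u, 0 ≤ f n u) {b Λ : ℕ → ℝ}
    (hb : ∀ n, 0 < b n) (hb' : ∀ n (s : ℝ), |s| ≤ 1 → 0 < b n + s / √(Λ n / 2))
    (hΛ : ∀ n, 0 < Λ n) (hA : ∀ n, 0 < ∫ u in (0:ℝ)..1, f n u ^ b n) {A : ℝ} (hA0 : 0 < A)
    (h : ∀ s : ℝ, |s| ≤ 1 → Tendsto (fun n => (∫ u in (0:ℝ)..1, f n u ^ (b n + s / √(Λ n / 2))) /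
      Real.exp ((b n + s / √(Λ n / 2)) ^ 2 / 4 * Λ n)) atTop (𝓝 A)) (m : ℕ) :
    Tendsto (fun n => (∫ u in (0:ℝ)..1, f n u ^ b n * nz (f n) (b n) (Λ n) u ^ m) /
      Real.exp (b n ^ 2 / 4 * Λ n)) atTop (𝓝 (A * ∫ x, x ^ m ∂(gaussianReal 0 1))) := by
  have hpr : ∀ n, IsProbabilityMeasure (wm (f n) (b n)) := fun n => wm_prob (hf n) (hf0 n) (hb n).le (hA n)
  set μ : ℕ → ProbabilityMeasure ℝ := fun n => lawP (f n) (b n) (Λ n) (hpr n) (nz_meas (hf n)) with hμ
  have hμn : ∀ n, (μ n : Measure ℝ) = (wm (f n) (b n)).map (nz (f n) (b n) (Λ n)) := fun n => rfl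
  have h0 := h 0 (by simp)
  simp only [zero_div, add_zero] at h0
  have h0' : Tendsto (fun n => Real.exp (b n ^ 2 / 4 * Λ n) / ∫ u in (0:ℝ)..1, f n u ^ b n) atTop (𝓝 A⁻¹) := by
    have := h0.inv₀ hA0.ne'
    refine this.congr fun n => ?_
    rw [inv_div]
  have hi : ∀ n, ∀ s : ℝ, |s| ≤ 1 → Integrable (fun x => Real.exp (s * x)) (μ n : Measure ℝ) := by
    intro n s hs
    rw [hμn, integrable_map_measure (by fun_prop) (nz_meas (hf n)).aemeasurable]
    exact expint_nz (hf n) (hf0 n) (hb n) (hΛ n) (hA n) (hb' n s hs)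
  have hm : ∀ s : ℝ, |s| ≤ 1 →
      Tendsto (fun n => ∫ x, Real.exp (s * x) ∂(μ n : Measure ℝ)) atTop (𝓝 (Real.exp (s ^ 2 / 2))) := by
    intro s hs
    have h1 := ((h s hs).mul h0').mul_const (Real.exp (s ^ 2 / 2))
    rw [mul_inv_cancel₀ hA0.ne', one_mul] at h1
    refine h1.congr fun n => ?_
    rw [hμn, integral_map (nz_meas (hf n)).aemeasurable (by fun_prop),
      mgf_nz (hf n) (hf0 n) (hb n) (hΛ n) (hA n) (hb' n s hs)]
  have h2 := moments hi hm m
  have h3 := h2.mul h0
  rw [mul_comm] at h3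
  refine h3.congr fun n => ?_
  rw [hμn, integral_map (nz_meas (hf n)).aemeasurable (by fun_prop), wm_int (hf n) (hf0 n) (hA n),
    ← intervalIntegral.integral_of_le zero_le_one]
  have := (hA n).ne'
  field_simp

section path

variable {F : ℝ → ℝ → ℝ} (hF : ∀ T, Continuous (F T)) (hF0 : ∀ T u, 0 ≤ F T u) {Λ : ℝ → ℝ}
    (hΛ : Tendsto Λ atTop atTop) {β A : ℝ} (hβ : 0 < β) (hA : 0 < A)

include hΛ in
lemma q_tendsto : Tendsto (fun T => 1 / √(Λ T / 2)) atTop (𝓝 0) := by
  have h1 : Tendsto (fun T => √(Λ T / 2)) atTop atTop :=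
    Real.tendsto_sqrt_atTop.comp (hΛ.atTop_div_const (by norm_num))
  exact h1.inv_tendsto_atTop.congr fun T => (one_div _).symm

include hΛ hβ hA in
lemma pos_all {b : ℝ → ℝ} (hb : Tendsto b atTop (𝓝 β)) (h : Tendsto (fun T => (∫ u in (0:ℝ)..1, F T u ^ b T) /
    Real.exp (b T ^ 2 / 4 * Λ T)) atTop (𝓝 A)) : ∀ᶠ T in atTop, 0 < b T ∧ 0 < Λ T ∧
      (∀ s : ℝ, |s| ≤ 1 → 0 < b T + s / √(Λ T / 2)) ∧ 0 < ∫ u in (0:ℝ)..1, F T u ^ b T := by
  filter_upwards [hb.eventually (lt_mem_nhds (show β / 2 < β by linarith)), hΛ.eventually_gt_atTop 0,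
    (q_tendsto hΛ).eventually (gt_mem_nhds (show (0:ℝ) < β / 2 by positivity)),
    h.eventually (lt_mem_nhds hA)] with T g1 g2 g3 g4
  refine ⟨by linarith, g2, fun s hs => ?_, (div_pos_iff_of_pos_right (Real.exp_pos _)).mp g4⟩
  have e1 : |s / √(Λ T / 2)| ≤ 1 / √(Λ T / 2) := by
    rw [abs_div, abs_of_nonneg (Real.sqrt_nonneg _)]
    exact div_le_div_of_nonneg_right hs (Real.sqrt_nonneg _)
  have := (abs_le.mp e1).1
  linarith

include hF hF0 hΛ hβ hA in
/-- the weighted law along a path; only exponents not exceeding those of the path are used -/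
theorem pathL {b : ℝ → ℝ} (hb : Tendsto b atTop (𝓝 β))
    (h : ∀ c : ℝ → ℝ, Tendsto c atTop (𝓝 β) → (∀ᶠ T in atTop, c T ≤ b T) →
      Tendsto (fun T => (∫ u in (0:ℝ)..1, F T u ^ c T) / Real.exp (c T ^ 2 / 4 * Λ T)) atTop (𝓝 A)) (y : ℝ) :
    Tendsto (fun T => tr (F T) (b T) (Real.exp (b T / 2 * Λ T + y * √(Λ T / 2))) /
      Real.exp (b T ^ 2 / 4 * Λ T)) atTop (𝓝 (A * Phi y)) := by
  have hev := pos_all hΛ hβ hA hb (h b hb (Eventually.of_forall fun _ => le_rfl))
  refine tendsto_of_seq_tendsto fun t ht => ?_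
  obtain ⟨N, hN⟩ := eventually_atTop.mp (ht.eventually hev)
  have hN' : ∀ n : ℕ, N ≤ n + N := fun n => Nat.le_add_left _ _
  have ht' : Tendsto (fun n : ℕ => t (n + N)) atTop atTop := ht.comp (tendsto_add_atTop_nat N)
  refine (tendsto_add_atTop_iff_nat N).mp ?_
  refine lawL (f := fun n => F (t (n + N))) (b := fun n => b (t (n + N))) (Λ := fun n => Λ (t (n + N)))
    (fun n => hF _) (fun n u => hF0 _ u) (fun n => (hN _ (hN' n)).1)
    (fun n s h0 h1 => (hN _ (hN' n)).2.2.1 (-s) (by rw [abs_neg, abs_of_nonneg h0]; exact h1))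
    (fun n => (hN _ (hN' n)).2.1) (fun n => (hN _ (hN' n)).2.2.2) hA (fun s hs hs1 => ?_) y
  have hc : Tendsto (fun T => b T + -s / √(Λ T / 2)) atTop (𝓝 β) := by
    have h1 := hb.add ((q_tendsto hΛ).const_mul (-s))
    rw [mul_zero, add_zero] at h1
    exact h1.congr fun T => by ring
  refine (h _ hc (Eventually.of_forall fun T => ?_)).comp ht'
  have : -s / √(Λ T / 2) ≤ 0 := div_nonpos_of_nonpos_of_nonneg (by linarith) (Real.sqrt_nonneg _)
  linarith

include hF hF0 hΛ hβ hA in
/-- the moments of the normalised logarithm along a path -/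
theorem pathM {b : ℝ → ℝ} (hb : Tendsto b atTop (𝓝 β))
    (h : ∀ c : ℝ → ℝ, Tendsto c atTop (𝓝 β) →
      Tendsto (fun T => (∫ u in (0:ℝ)..1, F T u ^ c T) / Real.exp (c T ^ 2 / 4 * Λ T)) atTop (𝓝 A)) (m : ℕ) :
    Tendsto (fun T => (∫ u in (0:ℝ)..1, F T u ^ b T * nz (F T) (b T) (Λ T) u ^ m) /
      Real.exp (b T ^ 2 / 4 * Λ T)) atTop (𝓝 (A * ∫ x, x ^ m ∂(gaussianReal 0 1))) := by
  have hev := pos_all hΛ hβ hA hb (h b hb)
  refine tendsto_of_seq_tendsto fun t ht => ?_
  obtain ⟨N, hN⟩ := eventually_atTop.mp (ht.eventually hev)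
  have hN' : ∀ n : ℕ, N ≤ n + N := fun n => Nat.le_add_left _ _
  have ht' : Tendsto (fun n : ℕ => t (n + N)) atTop atTop := ht.comp (tendsto_add_atTop_nat N)
  refine (tendsto_add_atTop_iff_nat N).mp ?_
  refine momA (f := fun n => F (t (n + N))) (b := fun n => b (t (n + N))) (Λ := fun n => Λ (t (n + N)))
    (fun n => hF _) (fun n u => hF0 _ u) (fun n => (hN _ (hN' n)).1) (fun n => (hN _ (hN' n)).2.2.1)
    (fun n => (hN _ (hN' n)).2.1) (fun n => (hN _ (hN' n)).2.2.2) hA (fun s hs => ?_) m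
  have hc : Tendsto (fun T => b T + s / √(Λ T / 2)) atTop (𝓝 β) := by
    have h1 := hb.add ((q_tendsto hΛ).const_mul s)
    rw [mul_zero, add_zero] at h1
    exact h1.congr fun T => by ring
  exact (h _ hc).comp ht'

end path

/-- the truncated moments of order `k > b` -/
theorem highA {f : ℝ → ℝ → ℝ} (hf : ∀ T, Continuous (f T)) (hf0 : ∀ T u, 0 ≤ f T u) {Λ : ℝ → ℝ}
    (hΛ : Tendsto Λ atTop atTop) {b A : ℝ} (hb : 0 < b) (hA : 0 < A)
    (hl : ∀ y : ℝ, Tendsto (fun T => tr (f T) b (Real.exp (b / 2 * Λ T + y * √(Λ T / 2))) /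
      Real.exp (b ^ 2 / 4 * Λ T)) atTop (𝓝 (A * Phi y))) {k : ℝ} (hk : b < k) (y : ℝ) :
    Tendsto (fun T => (Real.log (tr (f T) k (Real.exp (b / 2 * Λ T + y * √(Λ T / 2)))) -
      (k * b / 2 - b ^ 2 / 4) * Λ T) / √(Λ T / 2)) atTop (𝓝 ((k - b) * y)) ∧
    ∀ᶠ T in atTop, 0 < tr (f T) k (Real.exp (b / 2 * Λ T + y * √(Λ T / 2))) := by
  have hqT : Tendsto (fun T : ℝ => √(Λ T / 2)) atTop atTop :=
    Real.tendsto_sqrt_atTop.comp (hΛ.atTop_div_const (by norm_num))
  have main : ∀ ε > 0, ∀ᶠ T in atTop,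
      0 < tr (f T) k (Real.exp (b / 2 * Λ T + y * √(Λ T / 2))) ∧
      dist ((Real.log (tr (f T) k (Real.exp (b / 2 * Λ T + y * √(Λ T / 2)))) -
      (k * b / 2 - b ^ 2 / 4) * Λ T) / √(Λ T / 2)) ((k - b) * y) < ε := by
    intro ε hε
    obtain ⟨η, hη, hη1⟩ : ∃ η : ℝ, 0 < η ∧ (k - b) * η ≤ ε / 3 :=
      ⟨ε / 3 / (k - b), div_pos (by positivity) (by linarith), by
        rw [mul_div_cancel₀]; linarith⟩
    have hc : 0 < Phi y - Phi (y - η) := by have := Phi_lt (show y - η < y by linarith); linarith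
    set c := A * (Phi y - Phi (y - η)) / 2 with hcdef
    have hc0 : 0 < c := by positivity
    have hd := (hl y).sub (hl (y - η))
    have hlc : Tendsto (fun T : ℝ => Real.log c / √(Λ T / 2)) atTop (𝓝 0) :=
      tendsto_const_nhds.div_atTop hqT
    have hl2 : Tendsto (fun T : ℝ => Real.log (2 * A) / √(Λ T / 2)) atTop (𝓝 0) :=
      tendsto_const_nhds.div_atTop hqT
    have hlim1 : c < A * Phi y - A * Phi (y - η) := by
      rw [hcdef]; nlinarith [mul_pos hA hc]
    have hlim2 : A * Phi y < 2 * A := by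
      have := Phi_le_one y
      nlinarith
    filter_upwards [hd.eventually (lt_mem_nhds hlim1), (hl y).eventually (gt_mem_nhds hlim2), hqT.eventually_gt_atTop 0,
      hlc.eventually (lt_mem_nhds (show -(ε / 3) < 0 by linarith)),
      hl2.eventually (gt_mem_nhds (show (0:ℝ) < ε / 3 by positivity))] with T g1 g2 g3 g4 g5
    set L := Λ T with hL
    set q := √(L / 2) with hq
    set V := b / 2 * L + y * q with hV
    set V' := b / 2 * L + (y - η) * q with hV'
    set W := b ^ 2 / 4 * L with hW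
    have hE : 0 < Real.exp W := Real.exp_pos _
    rw [← sub_div, lt_div_iff₀ hE] at g1
    rw [div_lt_iff₀ hE] at g2
    have hk0 : 0 ≤ k := by linarith
    -- upper bound
    have hup : tr (f T) k (Real.exp V) ≤ Real.exp ((k - b) * V) * tr (f T) b (Real.exp V) := by
      unfold tr
      rw [← integral_const_mul]
      refine setIntegral_mono_on ((intOn (hf T) hk0).mono_set fun u hu => hu.1)
        (((intOn (hf T) hb.le).mono_set fun u hu => hu.1).const_mul _)
        (measurableSet_Ioc.inter (measurableSet_le (hf T).measurable measurable_const)) fun u hu => ?_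
      rcases (hf0 T u).eq_or_lt with h | h
      · rw [← h, Real.zero_rpow (by linarith), Real.zero_rpow hb.ne', mul_zero]
      · have e1 : f T u ^ k = f T u ^ (k - b) * f T u ^ b := by rw [← Real.rpow_add h]; congr 1; ring
        rw [e1]
        refine mul_le_mul_of_nonneg_right ?_ (Real.rpow_nonneg h.le _)
        calc f T u ^ (k - b) ≤ Real.exp V ^ (k - b) := Real.rpow_le_rpow h.le hu.2 (by linarith)
          _ = Real.exp ((k - b) * V) := by rw [← Real.exp_mul, mul_comm]
    -- lower bound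
    have hlo : Real.exp ((k - b) * V') * (tr (f T) b (Real.exp V) - tr (f T) b (Real.exp V')) ≤
        tr (f T) k (Real.exp V) := by
      have hVV : Real.exp V' ≤ Real.exp V := Real.exp_le_exp.mpr (by rw [hV, hV']; nlinarith)
      set S := {u : ℝ | u ∈ Ioc (0:ℝ) 1 ∧ f T u ≤ Real.exp V} with hS
      set S' := {u : ℝ | u ∈ Ioc (0:ℝ) 1 ∧ f T u ≤ Real.exp V'} with hS'
      have mS : MeasurableSet S := measurableSet_Ioc.inter (measurableSet_le (hf T).measurable measurable_const)
      have mS' : MeasurableSet S' := measurableSet_Ioc.inter (measurableSet_le (hf T).measurable measurable_const)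
      have hSS : S' ⊆ S := fun u hu => ⟨hu.1, hu.2.trans hVV⟩
      have e2 : tr (f T) b (Real.exp V) - tr (f T) b (Real.exp V') = ∫ u in S \ S', f T u ^ b := by
        unfold tr
        rw [← hS, ← hS', ← setIntegral_sdiff mS'
          ((intOn (hf T) hb.le).mono_set fun u hu => hu.1) hSS]
      have e3 : ∫ u in S \ S', f T u ^ k ≤ tr (f T) k (Real.exp V) := by
        unfold tr
        exact setIntegral_mono_set ((intOn (hf T) hk0).mono_set fun u hu => hu.1)
          (ae_of_all _ fun u => Real.rpow_nonneg (hf0 T u) _) (LE.le.eventuallyLE sdiff_subset)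
      refine le_trans ?_ e3
      rw [e2, ← integral_const_mul]
      refine setIntegral_mono_on (((intOn (hf T) hb.le).mono_set fun u hu => hu.1.1).const_mul _)
        ((intOn (hf T) hk0).mono_set fun u hu => hu.1.1) (mS.diff mS') fun u hu => ?_
      have h : Real.exp V' < f T u := by
        by_contra hcon
        exact hu.2 ⟨hu.1.1, not_lt.mp hcon⟩
      have h0 : 0 < f T u := (Real.exp_pos _).trans h
      have e1 : f T u ^ k = f T u ^ (k - b) * f T u ^ b := by rw [← Real.rpow_add h0]; congr 1; ring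
      rw [e1]
      refine mul_le_mul_of_nonneg_right ?_ (Real.rpow_nonneg h0.le _)
      calc Real.exp ((k - b) * V') = Real.exp V' ^ (k - b) := by rw [← Real.exp_mul, mul_comm]
        _ ≤ f T u ^ (k - b) := Real.rpow_le_rpow (Real.exp_pos _).le h.le (by linarith)
    have hlo2 : Real.exp ((k - b) * V') * (c * Real.exp W) ≤ tr (f T) k (Real.exp V) :=
      (mul_le_mul_of_nonneg_left g1.le (Real.exp_pos _).le).trans hlo
    have hpos : 0 < tr (f T) k (Real.exp V) := lt_of_lt_of_le (by positivity) hlo2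
    have hup2 : tr (f T) k (Real.exp V) ≤ Real.exp ((k - b) * V) * (2 * A * Real.exp W) :=
      hup.trans (mul_le_mul_of_nonneg_left g2.le (Real.exp_pos _).le)
    have l1 : (k - b) * V' + (Real.log c + W) ≤ Real.log (tr (f T) k (Real.exp V)) := by
      have := Real.log_le_log (by positivity) hlo2
      rwa [Real.log_mul (by positivity) (by positivity), Real.log_mul (by positivity) (by positivity), Real.log_exp,
        Real.log_exp] at this
    have l2 : Real.log (tr (f T) k (Real.exp V)) ≤ (k - b) * V + (Real.log (2 * A) + W) := by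
      have := Real.log_le_log hpos hup2
      rwa [Real.log_mul (by positivity) (by positivity), Real.log_mul (by positivity) (by positivity), Real.log_exp,
        Real.log_exp] at this
    refine ⟨hpos, ?_⟩
    rw [Real.dist_eq, abs_lt]
    have hgq : -(ε / 3) * q < Real.log c := by
      rwa [lt_div_iff₀ g3] at g4
    have hgq2 : Real.log (2 * A) < ε / 3 * q := by
      rwa [div_lt_iff₀ g3] at g5
    constructor
    · rw [lt_sub_iff_add_lt, lt_div_iff₀ g3]
      have : (k - b) * η * q ≤ ε / 3 * q := mul_le_mul_of_nonneg_right hη1 g3.le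
      have e : (k - b) * V' = (k - b) * (b / 2) * L + (k - b) * y * q - (k - b) * η * q := by rw [hV']; ring
      have e' : (k - b) * (b / 2) * L + W = (k * b / 2 - b ^ 2 / 4) * L := by rw [hW]; ring
      nlinarith
    · rw [sub_lt_iff_lt_add, div_lt_iff₀ g3]
      have e : (k - b) * V = (k - b) * (b / 2) * L + (k - b) * y * q := by rw [hV]; ring
      have e' : (k - b) * (b / 2) * L + W = (k * b / 2 - b ^ 2 / 4) * L := by rw [hW]; ring
      nlinarith
  refine ⟨?_, (main 1 one_pos).mono fun T h => h.1⟩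
  rw [Metric.tendsto_nhds]
  intro ε hε
  filter_upwards [main ε hε] with T h using h.2

/-- the moments of order `k < b` restricted to the large values -/
theorem lowA {f : ℝ → ℝ → ℝ} (hf : ∀ T, Continuous (f T)) (hf0 : ∀ T u, 0 ≤ f T u) {Λ : ℝ → ℝ}
    (hΛ : Tendsto Λ atTop atTop) {b A : ℝ} (hb : 0 < b) (hA : 0 < A)
    (hl : ∀ y : ℝ, Tendsto (fun T => tr (f T) b (Real.exp (b / 2 * Λ T + y * √(Λ T / 2))) /
      Real.exp (b ^ 2 / 4 * Λ T)) atTop (𝓝 (A * Phi y)))
    (hM : Tendsto (fun T => (∫ u in (0:ℝ)..1, f T u ^ b) / Real.exp (b ^ 2 / 4 * Λ T)) atTop (𝓝 A))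
    {k : ℝ} (hk : k < b) (y : ℝ) :
    Tendsto (fun T => (Real.log (tl (f T) k (Real.exp (b / 2 * Λ T + y * √(Λ T / 2)))) -
      (k * b / 2 - b ^ 2 / 4) * Λ T) / √(Λ T / 2)) atTop (𝓝 ((k - b) * y)) ∧
    ∀ᶠ T in atTop, 0 < tl (f T) k (Real.exp (b / 2 * Λ T + y * √(Λ T / 2))) := by
  have hqT : Tendsto (fun T : ℝ => √(Λ T / 2)) atTop atTop :=
    Real.tendsto_sqrt_atTop.comp (hΛ.atTop_div_const (by norm_num))
  have main : ∀ ε > 0, ∀ᶠ T in atTop,
      0 < tl (f T) k (Real.exp (b / 2 * Λ T + y * √(Λ T / 2))) ∧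
      dist ((Real.log (tl (f T) k (Real.exp (b / 2 * Λ T + y * √(Λ T / 2)))) -
      (k * b / 2 - b ^ 2 / 4) * Λ T) / √(Λ T / 2)) ((k - b) * y) < ε := by
    intro ε hε
    obtain ⟨η, hη, hη1⟩ : ∃ η : ℝ, 0 < η ∧ (b - k) * η ≤ ε / 3 :=
      ⟨ε / 3 / (b - k), div_pos (by positivity) (by linarith), by
        rw [mul_div_cancel₀]; linarith⟩
    have hc : 0 < Phi (y + η) - Phi y := by have := Phi_lt (show y < y + η by linarith); linarith
    set c := A * (Phi (y + η) - Phi y) / 2 with hcdef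
    have hc0 : 0 < c := by positivity
    have hd := (hl (y + η)).sub (hl y)
    have hlc : Tendsto (fun T : ℝ => Real.log c / √(Λ T / 2)) atTop (𝓝 0) :=
      tendsto_const_nhds.div_atTop hqT
    have hl2 : Tendsto (fun T : ℝ => Real.log (2 * A) / √(Λ T / 2)) atTop (𝓝 0) :=
      tendsto_const_nhds.div_atTop hqT
    have hlim1 : c < A * Phi (y + η) - A * Phi y := by
      rw [hcdef]; nlinarith [mul_pos hA hc]
    have hlim2 : A < 2 * A := by linarith
    filter_upwards [hd.eventually (lt_mem_nhds hlim1),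
      hM.eventually (gt_mem_nhds hlim2), hqT.eventually_gt_atTop 0,
      hlc.eventually (lt_mem_nhds (show -(ε / 3) < 0 by linarith)),
      hl2.eventually (gt_mem_nhds (show (0:ℝ) < ε / 3 by positivity))] with T g1 g2 g3 g4 g5
    set L := Λ T with hL
    set q := √(L / 2) with hq
    set V := b / 2 * L + y * q with hV
    set V' := b / 2 * L + (y + η) * q with hV'
    set W := b ^ 2 / 4 * L with hW
    have hE : 0 < Real.exp W := Real.exp_pos _
    rw [← sub_div, lt_div_iff₀ hE] at g1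
    rw [div_lt_iff₀ hE] at g2
    set R := {u : ℝ | u ∈ Ioc (0:ℝ) 1 ∧ Real.exp V ≤ f T u} with hR
    have mR : MeasurableSet R := measurableSet_Ioc.inter (measurableSet_le measurable_const (hf T).measurable)
    have hi2 := intOn (hf T) hb.le
    -- pointwise bound
    have hpt : ∀ u ∈ R, f T u ^ k ≤ Real.exp ((k - b) * V) * f T u ^ b := by
      intro u hu
      have h : 0 < f T u := (Real.exp_pos _).trans_le hu.2
      have e1 : f T u ^ k = f T u ^ (k - b) * f T u ^ b := by rw [← Real.rpow_add h]; congr 1; ring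
      rw [e1]
      refine mul_le_mul_of_nonneg_right ?_ (Real.rpow_nonneg h.le _)
      calc f T u ^ (k - b) ≤ Real.exp V ^ (k - b) :=
            Real.rpow_le_rpow_of_nonpos (Real.exp_pos _) hu.2 (by linarith)
        _ = Real.exp ((k - b) * V) := by rw [← Real.exp_mul, mul_comm]
    have hik : IntegrableOn (fun u => f T u ^ k) R := by
      refine Integrable.mono' ((hi2.mono_set fun u hu => hu.1).const_mul (Real.exp ((k - b) * V)))
        ((hf T).measurable.pow_const k).aestronglyMeasurable ?_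
      rw [ae_restrict_iff' mR]
      refine ae_of_all _ fun u hu => ?_
      rw [Real.norm_of_nonneg (Real.rpow_nonneg (hf0 T u) _)]
      exact hpt u hu
    -- upper bound
    have hup : tl (f T) k (Real.exp V) ≤ Real.exp ((k - b) * V) * ∫ u in (0:ℝ)..1, f T u ^ b := by
      calc tl (f T) k (Real.exp V) ≤ ∫ u in R, Real.exp ((k - b) * V) * f T u ^ b :=
            setIntegral_mono_on hik ((hi2.mono_set fun u hu => hu.1).const_mul _) mR hpt
        _ = Real.exp ((k - b) * V) * ∫ u in R, f T u ^ b := integral_const_mul _ _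
        _ ≤ _ := by
            refine mul_le_mul_of_nonneg_left ?_ (Real.exp_pos _).le
            rw [intervalIntegral.integral_of_le zero_le_one]
            exact setIntegral_mono_set hi2
              (ae_of_all _ fun u => Real.rpow_nonneg (hf0 T u) _) (LE.le.eventuallyLE fun u hu => hu.1)
    -- lower bound
    have hlo : Real.exp ((k - b) * V') * (tr (f T) b (Real.exp V') - tr (f T) b (Real.exp V)) ≤
        tl (f T) k (Real.exp V) := by
      have hVV : Real.exp V ≤ Real.exp V' := Real.exp_le_exp.mpr (by rw [hV, hV']; nlinarith)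
      set S := {u : ℝ | u ∈ Ioc (0:ℝ) 1 ∧ f T u ≤ Real.exp V'} with hS
      set S' := {u : ℝ | u ∈ Ioc (0:ℝ) 1 ∧ f T u ≤ Real.exp V} with hS'
      have mS : MeasurableSet S := measurableSet_Ioc.inter (measurableSet_le (hf T).measurable measurable_const)
      have mS' : MeasurableSet S' := measurableSet_Ioc.inter (measurableSet_le (hf T).measurable measurable_const)
      have hSS : S' ⊆ S := fun u hu => ⟨hu.1, hu.2.trans hVV⟩
      have hSR : S \ S' ⊆ R := fun u hu => ⟨hu.1.1, by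
        by_contra hcon
        exact hu.2 ⟨hu.1.1, (not_le.mp hcon).le⟩⟩
      have e2 : tr (f T) b (Real.exp V') - tr (f T) b (Real.exp V) = ∫ u in S \ S', f T u ^ b := by
        unfold tr
        rw [← hS, ← hS', ← setIntegral_sdiff mS' (hi2.mono_set fun u hu => hu.1) hSS]
      have e3 : ∫ u in S \ S', f T u ^ k ≤ tl (f T) k (Real.exp V) := by
        unfold tl
        exact setIntegral_mono_set hik
          (ae_of_all _ fun u => Real.rpow_nonneg (hf0 T u) _) (LE.le.eventuallyLE hSR)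
      refine le_trans ?_ e3
      rw [e2, ← integral_const_mul]
      refine setIntegral_mono_on ((hi2.mono_set fun u hu => hu.1.1).const_mul _)
        (hik.mono_set hSR) (mS.diff mS') fun u hu => ?_
      have h0 : 0 < f T u := (Real.exp_pos _).trans_le (hSR hu).2
      have e1 : f T u ^ k = f T u ^ (k - b) * f T u ^ b := by rw [← Real.rpow_add h0]; congr 1; ring
      rw [e1]
      refine mul_le_mul_of_nonneg_right ?_ (Real.rpow_nonneg h0.le _)
      calc Real.exp ((k - b) * V') = Real.exp V' ^ (k - b) := by rw [← Real.exp_mul, mul_comm]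
        _ ≤ f T u ^ (k - b) := Real.rpow_le_rpow_of_nonpos h0 hu.1.2 (by linarith)
    have hlo2 : Real.exp ((k - b) * V') * (c * Real.exp W) ≤ tl (f T) k (Real.exp V) :=
      (mul_le_mul_of_nonneg_left g1.le (Real.exp_pos _).le).trans hlo
    have hpos : 0 < tl (f T) k (Real.exp V) := lt_of_lt_of_le (by positivity) hlo2
    have hup2 : tl (f T) k (Real.exp V) ≤ Real.exp ((k - b) * V) * (2 * A * Real.exp W) :=
      hup.trans (mul_le_mul_of_nonneg_left g2.le (Real.exp_pos _).le)
    have l1 : (k - b) * V' + (Real.log c + W) ≤ Real.log (tl (f T) k (Real.exp V)) := by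
      have := Real.log_le_log (by positivity) hlo2
      rwa [Real.log_mul (by positivity) (by positivity), Real.log_mul (by positivity) (by positivity), Real.log_exp,
        Real.log_exp] at this
    have l2 : Real.log (tl (f T) k (Real.exp V)) ≤ (k - b) * V + (Real.log (2 * A) + W) := by
      have := Real.log_le_log hpos hup2
      rwa [Real.log_mul (by positivity) (by positivity), Real.log_mul (by positivity) (by positivity), Real.log_exp,
        Real.log_exp] at this
    refine ⟨hpos, ?_⟩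
    rw [Real.dist_eq, abs_lt]
    have hgq : -(ε / 3) * q < Real.log c := by
      rwa [lt_div_iff₀ g3] at g4
    have hgq2 : Real.log (2 * A) < ε / 3 * q := by
      rwa [div_lt_iff₀ g3] at g5
    constructor
    · rw [lt_sub_iff_add_lt, lt_div_iff₀ g3]
      have : (b - k) * η * q ≤ ε / 3 * q := mul_le_mul_of_nonneg_right hη1 g3.le
      have e : (k - b) * V' = (k - b) * (b / 2) * L + (k - b) * y * q - (b - k) * η * q := by rw [hV']; ring
      have e' : (k - b) * (b / 2) * L + W = (k * b / 2 - b ^ 2 / 4) * L := by rw [hW]; ring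
      nlinarith
    · rw [sub_lt_iff_lt_add, div_lt_iff₀ g3]
      have e : (k - b) * V = (k - b) * (b / 2) * L + (k - b) * y * q := by rw [hV]; ring
      have e' : (k - b) * (b / 2) * L + W = (k * b / 2 - b ^ 2 / 4) * L := by rw [hW]; ring
      nlinarith
  refine ⟨?_, (main 1 one_pos).mono fun T h => h.1⟩
  rw [Metric.tendsto_nhds]
  intro ε hε
  filter_upwards [main ε hε] with T h using h.2

end Pool.Agent.Q273.LU
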