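import Pool.Agent.Q273.LU.A4
import Pool.Agent.Q273.LU.A5

set_option autoImplicit false

/-! The weighted law of `log |ζ|` near the critical line. -/

namespace Pool.Agent.Q273.LU

open MeasureTheory ProbabilityTheory Filter Topology Set
open Pool.Agent.Q273.WL
open Pool.Agent.Y755 (mom)
open Pool.Agent.H306R2 (aF aF_pos)

/-- the randomly shifted zeta function on the line of real part `σ` -/
noncomputable def zs (x σ T u : ℝ) : ℂ := riemannZeta (σ + x * Complex.I + (u * T) * Complex.I)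

/-- the size of the variance -/
noncomputable def Lm (δ : ℝ) : ℝ := Real.log (1 / (2 * δ))

lemma zs_cont {σ : ℝ} (hσ : σ < 1) (x T : ℝ) : Continuous fun u => ‖zs x σ T u‖ := by
  unfold zs
  refine continuous_norm.comp ?_
  rw [continuous_iff_continuousAt]
  intro u
  have h1 : ((σ:ℂ) + (x:ℂ) * Complex.I + ((u:ℂ) * (T:ℂ)) * Complex.I) ≠ 1 := by
    intro h
    have := congrArg Complex.re h
    simp at this
    linarith
  have h2 := (differentiableAt_riemannZeta h1).continuousAt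
  have h3 : Continuous fun u : ℝ => ((σ:ℂ) + (x:ℂ) * Complex.I + ((u:ℂ) * (T:ℂ)) * Complex.I) := by fun_prop
  exact ContinuousAt.comp (f := fun u : ℝ => ((σ:ℂ) + (x:ℂ) * Complex.I + ((u:ℂ) * (T:ℂ)) * Complex.I)) h2
    h3.continuousAt

lemma exp_Lm {δ : ℝ} (hδ : 0 < δ) (b : ℝ) : Real.exp (b ^ 2 / 4 * Lm δ) = ((2 * δ) ^ (b ^ 2 / 4))⁻¹ := by
  unfold Lm
  rw [one_div, Real.log_inv, Real.rpow_def_of_pos (by linarith), ← Real.exp_neg]
  congr 1; ring

lemma Lm_tendsto {δ : ℝ → ℝ} (h1 : Tendsto δ atTop (𝓝 0)) (hpos : ∀ᶠ T in atTop, 0 < δ T) :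
    Tendsto (fun T => Lm (δ T)) atTop atTop := by
  have h2 : Tendsto (fun T => (2 * δ T)⁻¹) atTop atTop := by
    refine Tendsto.inv_tendsto_nhdsGT_zero ?_
    rw [tendsto_nhdsWithin_iff]
    refine ⟨by simpa using h1.const_mul 2, hpos.mono fun T hT => ?_⟩
    show 0 < 2 * δ T
    linarith
  refine (Real.tendsto_log_atTop.comp h2).congr fun T => ?_
  unfold Lm
  rw [Function.comp, one_div]

/-- truncation at a continuous function, to have a family defined for all `T` -/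
noncomputable def cutσ (δ : ℝ) : ℝ := min (1 / 2 + δ) (3 / 4)

lemma cutσ_lt (δ : ℝ) : cutσ δ < 1 := (min_le_right _ _).trans_lt (by norm_num)

lemma cutσ_eq {δ : ℝ} (h : δ ≤ 1 / 4) : cutσ δ = 1 / 2 + δ := min_eq_left (by linarith)

variable {β : ℝ} (hβ : 0 < β) (x : ℝ) {b δ : ℝ → ℝ} (hb : Tendsto b atTop (𝓝 β)) (hb4 : ∀ᶠ T in atTop, b T ≤ 4)
  (h1 : Tendsto δ atTop (𝓝 0)) (h2 : Tendsto (fun T => δ T * Real.log T) atTop atTop)

include h2 in
lemma pos_ev : ∀ᶠ T in atTop, 0 < δ T := by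
  filter_upwards [h2.eventually_gt_atTop 0, eventually_gt_atTop 1] with T hT hT1
  exact (pos_iff_pos_of_mul_pos hT).mpr (Real.log_pos hT1)

include hβ h1 h2 in
lemma input (c : ℝ → ℝ) (hc : Tendsto c atTop (𝓝 β)) (hc4 : ∀ᶠ T in atTop, c T ≤ 4) :
    Tendsto (fun T => (∫ u in (0:ℝ)..1, ‖zs x (cutσ (δ T)) T u‖ ^ c T) / Real.exp (c T ^ 2 / 4 * Lm (δ T)))
      atTop (𝓝 (aF (β / 2))) := by
  refine (mom_joint hβ x hc hc4 h1 h2).congr' ?_
  filter_upwards [pos_ev h2, h1.eventually (gt_mem_nhds (show (0:ℝ) < 1 / 4 by norm_num))] with T hT hT4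
  rw [exp_Lm hT, cutσ_eq hT4.le, div_inv_eq_mul, mul_comm]
  rfl

include hβ hb hb4 h1 h2 in
lemma law_cut (y : ℝ) :
    Tendsto (fun T => tr (fun u => ‖zs x (cutσ (δ T)) T u‖) (b T) (Real.exp (b T / 2 * Lm (δ T) + y * √(Lm (δ T) / 2))) /
      Real.exp (b T ^ 2 / 4 * Lm (δ T))) atTop (𝓝 (aF (β / 2) * Phi y)) :=
  pathL (F := fun T u => ‖zs x (cutσ (δ T)) T u‖) (fun T => zs_cont (cutσ_lt _) x T) (fun T u => norm_nonneg _)
    (Lm_tendsto h1 (pos_ev h2)) hβ (aF_pos (show 0 < β / 2 by positivity)) hb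
    (fun c hc hcb => input hβ x h1 h2 c hc ((hcb.and hb4).mono fun T h => h.1.trans h.2)) y

include hβ hb hb4 h1 h2 in
/-- the weighted law -/
theorem law_near (y : ℝ) :
    Tendsto (fun T => (2 * δ T) ^ (b T ^ 2 / 4) *
      ∫ u in {u : ℝ | u ∈ Ioc (0:ℝ) 1 ∧ ‖zs x (1 / 2 + δ T) T u‖ ≤ Real.exp (b T / 2 * Lm (δ T) + y * √(Lm (δ T) / 2))},
        ‖zs x (1 / 2 + δ T) T u‖ ^ b T) atTop (𝓝 (aF (β / 2) * Phi y)) := by
  refine (law_cut hβ x hb hb4 h1 h2 y).congr' ?_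
  filter_upwards [pos_ev h2, h1.eventually (gt_mem_nhds (show (0:ℝ) < 1 / 4 by norm_num))] with T hT hT4
  rw [exp_Lm hT, cutσ_eq hT4.le, div_inv_eq_mul, mul_comm]
  rfl

include hβ hb h1 h2 in
/-- the moments of the normalised logarithm -/
theorem mom_near (hβ4 : β < 4) (m : ℕ) :
    Tendsto (fun T => (2 * δ T) ^ (b T ^ 2 / 4) * ∫ u in (0:ℝ)..1, ‖zs x (1 / 2 + δ T) T u‖ ^ b T *
      ((Real.log ‖zs x (1 / 2 + δ T) T u‖ - b T / 2 * Lm (δ T)) / √(Lm (δ T) / 2)) ^ m) atTop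
      (𝓝 (aF (β / 2) * ∫ z, z ^ m ∂(gaussianReal 0 1))) := by
  have h := pathM (F := fun T u => ‖zs x (cutσ (δ T)) T u‖) (fun T => zs_cont (cutσ_lt _) x T) (fun T u => norm_nonneg _)
    (Lm_tendsto h1 (pos_ev h2)) hβ (aF_pos (show 0 < β / 2 by positivity)) hb
    (fun c hc => input hβ x h1 h2 c hc ((hc.eventually (eventually_lt_nhds hβ4)).mono fun T h => h.le)) m
  refine h.congr' ?_
  filter_upwards [pos_ev h2, h1.eventually (gt_mem_nhds (show (0:ℝ) < 1 / 4 by norm_num))] with T hT hT4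
  rw [exp_Lm hT, cutσ_eq hT4.le, div_inv_eq_mul, mul_comm]
  rfl

include hβ h1 h2 in
/-- the moments of higher order restricted to the smaller values -/
theorem high_near (hβ4 : β ≤ 4) {k : ℝ} (hk : β < k) (y : ℝ) :
    Tendsto (fun T => (Real.log (∫ u in {u : ℝ | u ∈ Ioc (0:ℝ) 1 ∧ ‖zs x (1 / 2 + δ T) T u‖ ≤
      Real.exp (β / 2 * Lm (δ T) + y * √(Lm (δ T) / 2))}, ‖zs x (1 / 2 + δ T) T u‖ ^ k) -
      (k * β / 2 - β ^ 2 / 4) * Lm (δ T)) / √(Lm (δ T) / 2)) atTop (𝓝 ((k - β) * y)) := by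
  have h := (highA (f := fun T u => ‖zs x (cutσ (δ T)) T u‖) (fun T => zs_cont (cutσ_lt _) x T) (fun T u => norm_nonneg _)
    (Lm_tendsto h1 (pos_ev h2)) hβ (aF_pos (show 0 < β / 2 by positivity))
    (fun y => law_cut hβ x (tendsto_const_nhds (x := β)) (Eventually.of_forall fun _ => hβ4) h1 h2 y) hk y).1
  refine h.congr' ?_
  filter_upwards [h1.eventually (gt_mem_nhds (show (0:ℝ) < 1 / 4 by norm_num))] with T hT4
  rw [cutσ_eq hT4.le]
  rfl

include hβ h1 h2 in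
/-- the moments of lower order restricted to the larger values -/
theorem low_near (hβ4 : β ≤ 4) {k : ℝ} (hk : k < β) (y : ℝ) :
    Tendsto (fun T => (Real.log (∫ u in {u : ℝ | u ∈ Ioc (0:ℝ) 1 ∧
      Real.exp (β / 2 * Lm (δ T) + y * √(Lm (δ T) / 2)) ≤ ‖zs x (1 / 2 + δ T) T u‖}, ‖zs x (1 / 2 + δ T) T u‖ ^ k) -
      (k * β / 2 - β ^ 2 / 4) * Lm (δ T)) / √(Lm (δ T) / 2)) atTop (𝓝 ((k - β) * y)) := by
  have h := (lowA (f := fun T u => ‖zs x (cutσ (δ T)) T u‖) (fun T => zs_cont (cutσ_lt _) x T) (fun T u => norm_nonneg _)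
    (Lm_tendsto h1 (pos_ev h2)) hβ (aF_pos (show 0 < β / 2 by positivity))
    (fun y => law_cut hβ x (tendsto_const_nhds (x := β)) (Eventually.of_forall fun _ => hβ4) h1 h2 y)
    (input hβ x h1 h2 _ tendsto_const_nhds (Eventually.of_forall fun _ => hβ4)) hk y).1
  refine h.congr' ?_
  filter_upwards [h1.eventually (gt_mem_nhds (show (0:ℝ) < 1 / 4 by norm_num))] with T hT4
  rw [cutσ_eq hT4.le]
  rfl

end Pool.Agent.Q273.LU
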